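import Pool.Agent.Y142.Rel

/-!
# Characteristic polynomials and stable isotropic subspaces over any field
-/

set_option autoImplicit false
set_option linter.unusedSectionVars false

namespace Pool.Agent.Y126.SH

open Polynomial Module Pool.Agent.Y142

section gen

variable {F : Type*} [Field F]

open Module.Basis in
theorem charpoly_eq_mul' {V : Type*} [AddCommGroup V] [Module F V] [FiniteDimensional F V]
    {W : Submodule F V} {e : V →ₗ[F] V} (he : W ≤ W.comap e) :
    e.charpoly = (e.restrict he).charpoly * (W.mapQ W e he).charpoly := by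
  let m := Module.Free.ChooseBasisIndex F W
  let bW : Basis m F W := Module.Free.chooseBasis F W
  let n := Module.Free.ChooseBasisIndex F (V ⧸ W)
  let bQ : Basis n F (V ⧸ W) := Module.Free.chooseBasis F (V ⧸ W)
  let b := sumQuot bW bQ
  let A : Matrix m m F := LinearMap.toMatrix bW bW (e.restrict he)
  let B : Matrix m n F := Matrix.of fun i l ↦
    ((sumQuot bW bQ).repr (e ((sumQuot bW bQ) (Sum.inr l)))) (Sum.inl i)
  let D : Matrix n n F := LinearMap.toMatrix bQ bQ (W.mapQ W e he)
  suffices LinearMap.toMatrix b b e = Matrix.fromBlocks A B 0 D by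
    rw [← LinearMap.charpoly_toMatrix e b, this, ← LinearMap.charpoly_toMatrix _ bW,
      ← LinearMap.charpoly_toMatrix _ bQ, Matrix.charpoly_fromBlocks_zero₂₁]
  ext u v
  cases u with
  | inl i =>
    cases v with
    | inl k =>
      simp only [b, sumQuot_inl, Matrix.fromBlocks_apply₁₁, A, LinearMap.toMatrix_apply]
      apply sumQuot_repr_inl_of_mem
    | inr l => simp [b, LinearMap.toMatrix_apply, Matrix.fromBlocks_apply₁₂, B]
  | inr j =>
    cases v with
    | inl k =>
      suffices W.mkQ (e (bW k)) = 0 by simp [LinearMap.toMatrix_apply, b, this]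
      rw [← LinearMap.mem_ker, Submodule.ker_mkQ]
      exact he (Submodule.coe_mem (bW k))
    | inr l =>
      simp only [LinearMap.toMatrix_apply, sumQuot_repr_inr,
        Matrix.fromBlocks_apply₂₂, b, D]
      rw [← sumQuot_inr bW bQ l, W.mapQ_apply]
      simp

/-- the matrix form over an infinite field -/
theorem charpoly_inv_inf [Infinite F] {m : Type*} [Fintype m] [DecidableEq m] {A A' : Matrix m m F}
    (h : A * A' = 1) (h' : A' * A = 1) {s : F} (hs : s ≠ 0) :
    (s • A').charpoly = dualPoly s A.charpoly := by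
  let e : (m → F) ≃ₗ[F] (m → F) := Matrix.toLin'OfInv h' h
  have h1 := charpoly_dual e hs
  let b := Pi.basisFun F m
  have h2 : (e : (m → F) →ₗ[F] (m → F)) = Matrix.toLin' A := by
    apply LinearMap.ext; intro x; rfl
  have h3 : (e.symm : (m → F) →ₗ[F] (m → F)) = Matrix.toLin' A' := by
    apply LinearMap.ext; intro x; rfl
  rw [h2, h3] at h1
  have h4 : (Matrix.toLin' A).charpoly = A.charpoly := by
    rw [← LinearMap.charpoly_toMatrix _ b]
    congr 1
    exact LinearMap.toMatrix'_toLin' A
  have h5 : LinearMap.toMatrix b.dualBasis b.dualBasis (s • (Matrix.toLin' A').dualMap) =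
      (s • A').transpose := by
    rw [map_smul, Matrix.transpose_smul]
    congr 1
    have h6 := LinearMap.toMatrix_transpose (B₁ := b) (B₂ := b) (Matrix.toLin' A')
    have h7 : LinearMap.toMatrix b b (Matrix.toLin' A') = A' := LinearMap.toMatrix'_toLin' A'
    rw [h7] at h6
    exact h6
  rw [← LinearMap.charpoly_toMatrix _ b.dualBasis, h5, Matrix.charpoly_transpose, h4] at h1
  exact h1

theorem charpoly_inv {m : Type*} [Fintype m] [DecidableEq m] {A A' : Matrix m m F}
    (h : A * A' = 1) (h' : A' * A = 1) {s : F} (hs : s ≠ 0) :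
    (s • A').charpoly = dualPoly s A.charpoly := by
  let f := algebraMap F (AlgebraicClosure F)
  have hf : Function.Injective f := (algebraMap F (AlgebraicClosure F)).injective
  have : Infinite (AlgebraicClosure F) := IsAlgClosed.instInfinite
  apply Polynomial.map_injective f hf
  rw [map_dualPoly, ← Matrix.charpoly_map, ← Matrix.charpoly_map]
  have h1 : A.map f * A'.map f = 1 := by
    rw [← Matrix.map_mul, h]
    exact Matrix.map_one f (map_zero f) (map_one f)
  have h2 : A'.map f * A.map f = 1 := by
    rw [← Matrix.map_mul, h']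
    exact Matrix.map_one f (map_zero f) (map_one f)
  have h3 : (s • A').map f = f s • A'.map f := by
    ext i j
    simp
  rw [h3]
  exact charpoly_inv_inf h1 h2 ((_root_.map_ne_zero f).2 hs)

theorem charpoly_dual' {W : Type*} [AddCommGroup W] [Module F W] [FiniteDimensional F W]
    (e : W ≃ₗ[F] W) {s : F} (hs : s ≠ 0) :
    (s • (e.symm : W →ₗ[F] W).dualMap).charpoly = dualPoly s (e : W →ₗ[F] W).charpoly := by
  classical
  let b := Module.Free.chooseBasis F W
  let A := LinearMap.toMatrix b b (e : W →ₗ[F] W)
  let A' := LinearMap.toMatrix b b (e.symm : W →ₗ[F] W)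
  have h1 : A * A' = 1 := by
    rw [← LinearMap.toMatrix_comp]
    have : (e : W →ₗ[F] W) ∘ₗ (e.symm : W →ₗ[F] W) = LinearMap.id := by
      apply LinearMap.ext; intro x; simp
    rw [this, LinearMap.toMatrix_id]
  have h2 : A' * A = 1 := by
    rw [← LinearMap.toMatrix_comp]
    have : (e.symm : W →ₗ[F] W) ∘ₗ (e : W →ₗ[F] W) = LinearMap.id := by
      apply LinearMap.ext; intro x; simp
    rw [this, LinearMap.toMatrix_id]
  have h3 := charpoly_inv h1 h2 hs
  rw [← LinearMap.charpoly_toMatrix _ b.dualBasis, ← LinearMap.charpoly_toMatrix _ b, ← h3,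
    ← Matrix.charpoly_transpose (s • A')]
  congr 1
  rw [map_smul, Matrix.transpose_smul]
  congr 1
  exact LinearMap.toMatrix_transpose (B₁ := b) (B₂ := b) (e.symm : W →ₗ[F] W)

variable {V : Type*} [AddCommGroup V] [Module F V] [FiniteDimensional F V]
  {B : LinearMap.BilinForm F V} {e : V →ₗ[F] V} {s : F} {W : Submodule F V}

theorem charpoly_surj' {V' : Type*} [AddCommGroup V'] [Module F V'] [FiniteDimensional F V']
    {e : V →ₗ[F] V} {e' : V' →ₗ[F] V'} (π : V →ₗ[F] V') (hπ : Function.Surjective π)
    (hc : ∀ x, π (e x) = e' (π x)) : e'.charpoly ∣ e.charpoly := by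
  have he : LinearMap.ker π ≤ (LinearMap.ker π).comap e := by
    intro x hx
    rw [Submodule.mem_comap, LinearMap.mem_ker, hc, LinearMap.mem_ker.1 hx, map_zero]
  rw [charpoly_eq_mul' he]
  have h1 : e'.charpoly = ((LinearMap.ker π).mapQ (LinearMap.ker π) e he).charpoly := by
    rw [← LinearEquiv.charpoly_conj (π.quotKerEquivOfSurjective hπ)]
    congr 1
    apply LinearMap.ext
    intro y
    obtain ⟨x, rfl⟩ := hπ y
    rw [LinearEquiv.conj_apply_apply]
    have h2 : (π.quotKerEquivOfSurjective hπ).symm (π x) = (LinearMap.ker π).mkQ x := by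
      rw [LinearEquiv.symm_apply_eq]
      rfl
    rw [h2, Submodule.mkQ_apply, Submodule.mapQ_apply]
    exact (hc x).symm
  rw [h1]
  exact dvd_mul_left _ _

theorem charpoly_mul_dual_dvd' (hB : B.Nondegenerate) (hs : s ≠ 0)
    (he : ∀ x y, B (e x) (e y) = s * B x y) (hW : W ≤ W.comap e) (hiso : W ≤ B.orthogonal W) :
    (e.restrict hW).charpoly * dualPoly s (e.restrict hW).charpoly ∣ e.charpoly := by
  have hinj : Function.Injective (e.restrict hW) := by
    intro x y hxy
    apply Subtype.ext
    apply injective_of_similitude hB hs he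
    exact congrArg Subtype.val hxy
  let eW : W ≃ₗ[F] W := LinearEquiv.ofInjectiveEndo (e.restrict hW) hinj
  have heW : (eW : W →ₗ[F] W) = e.restrict hW := by
    apply LinearMap.ext; intro x; rfl
  rw [charpoly_eq_mul' hW]
  apply mul_dvd_mul_left
  rw [← heW, ← charpoly_dual' eW hs]
  let Φ : V →ₗ[F] Dual F W := (W.subtype.dualMap).comp (LinearMap.flip B)
  have hΦ : ∀ v (w : W), Φ v w = B w v := fun v w => rfl
  have hker : W ≤ LinearMap.ker Φ := by
    intro v hv
    rw [LinearMap.mem_ker]
    apply LinearMap.ext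
    intro w
    rw [hΦ]
    exact hiso hv w w.2
  have hΦs : Function.Surjective Φ := by
    have h1 : Function.Surjective (W.subtype.dualMap) :=
      LinearMap.dualMap_surjective_of_injective W.subtype_injective
    have h2 : Function.Surjective (LinearMap.flip B) := by
      have h3 : Function.Injective (LinearMap.flip B) := by
        rw [← LinearMap.ker_eq_bot, LinearMap.ker_eq_bot']
        intro x hx
        apply hB.2
        intro y
        exact LinearMap.congr_fun hx y
      exact (LinearMap.injective_iff_surjective_of_finrank_eq_finrank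
        (Subspace.dual_finrank_eq).symm).1 h3
    exact h1.comp h2
  have hΦc : ∀ v, Φ (e v) = (s • (eW.symm : W →ₗ[F] W).dualMap) (Φ v) := by
    intro v
    apply LinearMap.ext
    intro w
    obtain ⟨w, rfl⟩ := eW.surjective w
    have h1 : Φ (e v) (eW w) = B (e w) (e v) := rfl
    rw [h1, he]
    simp only [LinearMap.smul_apply, LinearMap.dualMap_apply', LinearMap.comp_apply,
      LinearEquiv.coe_coe, LinearEquiv.symm_apply_apply, smul_eq_mul]
    rw [hΦ]
  refine charpoly_surj' (W.liftQ Φ hker) ?_ ?_
  · intro φ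
    obtain ⟨v, rfl⟩ := hΦs φ
    exact ⟨W.mkQ v, rfl⟩
  · intro x
    obtain ⟨x, rfl⟩ := W.mkQ_surjective x
    exact hΦc x

/-- the eigenvalues on a stable isotropic subspace and on its dual -/
theorem roots_isotropic {Ω : Type*} [Field Ω] [Algebra F Ω] [IsAlgClosed Ω]
    (hB : B.Nondegenerate) (hs : s ≠ 0)
    (he : ∀ x y, B (e x) (e y) = s * B x y) (hW : W ≤ W.comap e) (hiso : W ≤ B.orthogonal W) :
    (e.restrict hW).charpoly.aroots Ω +
      ((e.restrict hW).charpoly.aroots Ω).map (fun z => algebraMap F Ω s / z) ≤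
        e.charpoly.aroots Ω ∧
    ((e.restrict hW).charpoly.aroots Ω).prod = algebraMap F Ω (LinearMap.det (e.restrict hW)) ∧
    Multiset.card ((e.restrict hW).charpoly.aroots Ω) = finrank F W := by
  have hinj : Function.Injective (e.restrict hW) := by
    intro x y hxy
    apply Subtype.ext
    apply injective_of_similitude hB hs he
    exact congrArg Subtype.val hxy
  let eW : W ≃ₗ[F] W := LinearEquiv.ofInjectiveEndo (e.restrict hW) hinj
  have heW : (eW : W →ₗ[F] W) = e.restrict hW := by
    apply LinearMap.ext; intro x; rfl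
  have hdet : LinearMap.det (e.restrict hW) ≠ 0 := by
    rw [← heW]
    exact (LinearEquiv.isUnit_det' eW).ne_zero
  have hmon : (e.restrict hW).charpoly.Monic := LinearMap.charpoly_monic _
  have hsp : ((e.restrict hW).charpoly.map (algebraMap F Ω)).Splits := IsAlgClosed.splits _
  have hc0 : (e.restrict hW).charpoly.eval 0 = (-1) ^ finrank F W * LinearMap.det (e.restrict hW) := by
    rw [← coeff_zero_eq_eval_zero, LinearMap.det_eq_sign_charpoly_coeff, ← mul_assoc, ← mul_pow]
    simp
  have hQ0 : (e.restrict hW).charpoly.eval 0 ≠ 0 := by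
    rw [hc0]
    exact mul_ne_zero (pow_ne_zero _ (by simp)) hdet
  have hcard : Multiset.card ((e.restrict hW).charpoly.aroots Ω) = finrank F W := by
    have h1 := hsp.natDegree_eq_card_roots
    rw [natDegree_map, LinearMap.charpoly_natDegree] at h1
    exact h1.symm
  refine ⟨?_, ?_, hcard⟩
  · rw [← aroots_dualPoly hs hmon hQ0, aroots_def, aroots_def, ← roots_mul, ← Polynomial.map_mul]
    · rw [aroots_def]
      exact roots.le_of_dvd ((LinearMap.charpoly_monic e).map _).ne_zero
        (Polynomial.map_dvd _ (charpoly_mul_dual_dvd' hB hs he hW hiso))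
    · intro h3
      rw [← Polynomial.map_mul] at h3
      obtain ⟨R, hR⟩ := charpoly_mul_dual_dvd' hB hs he hW hiso
      apply ((LinearMap.charpoly_monic e).map (algebraMap F Ω)).ne_zero
      rw [hR, Polynomial.map_mul, h3, zero_mul]
  · have h2 := hsp.coeff_zero_eq_prod_roots_of_monic (hmon.map _)
    rw [natDegree_map, coeff_map, coeff_zero_eq_eval_zero, LinearMap.charpoly_natDegree, hc0,
      map_mul, map_pow, map_neg, map_one] at h2
    have h3 : ((-1 : Ω) ^ finrank F W) ≠ 0 := pow_ne_zero _ (by simp)
    exact (mul_left_cancel₀ h3 h2).symm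

end gen

end Pool.Agent.Y126.SH
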