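import Pool.Agent.Y126.SH.Irr

/-!
# The rational and the residual representations are irreducible
-/

set_option autoImplicit false

namespace Pool.Agent.Y126.SH

open Module Polynomial Pool.Agent.Y800

section

variable {n : ℕ} {S : Finset ℕ} {w : ℕ} {T : IntegralSystem n} {ℓ : ℕ} [hℓ : Fact ℓ.Prime]

theorem rat_eq : T.rat ℓ = rep (algebraMap ℤ_[ℓ] ℚ_[ℓ]) T := rfl

theorem res_eq : T.res ℓ = rep (PadicInt.toZMod (p := ℓ)) T := rfl

theorem mink_rat (hT : T.IsPure S w) : Mink (algebraMap ℤ_[ℓ] ℚ_[ℓ]) T := by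
  intro U hU a h g
  have h1 := eq_one_padic (ℓ := ℓ) (detChar (rep (algebraMap ℤ_[ℓ] ℚ_[ℓ]) T) U hU *
    (chik (algebraMap ℤ_[ℓ] ℚ_[ℓ])) ^ a) ?_ ?_ g
  · have h2 := congrArg (Units.val) h1
    exact h2
  · have c1 : Continuous fun g => (chik (algebraMap ℤ_[ℓ] ℚ_[ℓ]) g : ℚ_[ℓ]) := by
      have c0 : Continuous fun g => (chi ℓ g : ℤ_[ℓ]) :=
        Units.continuous_val.comp (continuous_chi ℓ)
      have : Continuous fun g => ((chi ℓ g : ℤ_[ℓ]) : ℚ_[ℓ]) := continuous_subtype_val.comp c0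
      exact this
    have c2 : Continuous fun g => (detChar (rep (algebraMap ℤ_[ℓ] ℚ_[ℓ]) T) U hU g : ℚ_[ℓ]) := by
      apply Pool.Agent.Y142.continuous_detRep
      intro f x
      have c3 : Continuous fun g => (lin (rep (algebraMap ℤ_[ℓ] ℚ_[ℓ]) T) g) x := by
        have c4 : Continuous fun g => (rep (algebraMap ℤ_[ℓ] ℚ_[ℓ]) T g :
            Matrix (Fin n) (Fin n) ℚ_[ℓ]) := by
          have : Continuous fun g => (T.rho ℓ g : Matrix (Fin n) (Fin n) ℤ_[ℓ]).map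
              (fun z : ℤ_[ℓ] => (z : ℚ_[ℓ])) :=
            (hT.continuous ℓ).matrix_map continuous_subtype_val
          exact this
        have : Continuous fun g => (rep (algebraMap ℤ_[ℓ] ℚ_[ℓ]) T g :
            Matrix (Fin n) (Fin n) ℚ_[ℓ]).mulVec x := c4.matrix_mulVec continuous_const
        exact this
      exact (LinearMap.continuous_of_finiteDimensional f).comp c3
    exact c2.mul (c1.pow a)
  · intro P hP τ hτ
    apply Units.ext
    exact h P hP τ hτ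

/-- the congruence class is open -/
theorem isOpen_zmod (c : ZMod ℓ) : IsOpen {x : ℤ_[ℓ] | PadicInt.toZMod x = c} := by
  rw [Metric.isOpen_iff]
  intro x hx
  refine ⟨1, one_pos, fun y hy => ?_⟩
  rw [Metric.mem_ball, dist_eq_norm] at hy
  have h1 : y - x ∈ IsLocalRing.maximalIdeal ℤ_[ℓ] := by
    rw [IsLocalRing.mem_maximalIdeal, PadicInt.mem_nonunits]
    exact hy
  rw [← PadicInt.ker_toZMod, RingHom.mem_ker, map_sub, sub_eq_zero] at h1
  show PadicInt.toZMod y = c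
  rw [h1]
  exact hx

theorem isOpen_res (hT : T.IsPure S w) : IsOpen (((T.res ℓ).ker : Subgroup GQ) : Set GQ) := by
  have h1 : (((T.res ℓ).ker : Subgroup GQ) : Set GQ) = ⋂ i, ⋂ j,
      (fun g => (T.rho ℓ g : Matrix (Fin n) (Fin n) ℤ_[ℓ]) i j) ⁻¹'
        {x : ℤ_[ℓ] | PadicInt.toZMod x = (1 : Matrix (Fin n) (Fin n) (ZMod ℓ)) i j} := by
    ext g
    simp only [SetLike.mem_coe, MonoidHom.mem_ker, Set.mem_iInter, Set.mem_preimage]
    constructor
    · intro hg i j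
      have h2 := congrArg (fun u : GL (Fin n) (ZMod ℓ) => (u : Matrix (Fin n) (Fin n) (ZMod ℓ)) i j) hg
      exact h2
    · intro hg
      apply Units.ext
      ext i j
      exact hg i j
  rw [h1]
  refine isOpen_iInter_of_finite fun i => isOpen_iInter_of_finite fun j => ?_
  refine (isOpen_zmod _).preimage ?_
  exact (continuous_apply j).comp ((continuous_apply i).comp (hT.continuous ℓ))

theorem mink_res (hT : T.IsPure S w) : Mink (PadicInt.toZMod (p := ℓ)) T := by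
  intro U hU a h g
  have hopen : IsOpen ((((T.res ℓ).ker ⊓ (chik (PadicInt.toZMod (p := ℓ))).ker : Subgroup GQ)) :
      Set GQ) := by
    rw [Subgroup.coe_inf]
    refine (isOpen_res hT).inter ?_
    have h1 : ((chik (PadicInt.toZMod (p := ℓ))).ker : Set GQ) =
        (fun g => (chi ℓ g : ℤ_[ℓ])) ⁻¹' {x : ℤ_[ℓ] | PadicInt.toZMod x = 1} := by
      ext g
      simp only [SetLike.mem_coe, MonoidHom.mem_ker, Set.mem_preimage]
      constructor
      · intro hg
        exact congrArg Units.val hg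
      · intro hg
        apply Units.ext
        exact hg
    rw [h1]
    exact (isOpen_zmod 1).preimage (Units.continuous_val.comp (continuous_chi ℓ))
  have h1 := eq_one_disc (detChar (rep (PadicInt.toZMod (p := ℓ)) T) U hU *
    (chik (PadicInt.toZMod (p := ℓ))) ^ a) _ hopen ?_ ?_ g
  · exact congrArg (Units.val) h1
  · intro g hg
    obtain ⟨hg1, hg2⟩ := hg
    have hg1' : rep (PadicInt.toZMod (p := ℓ)) T g = 1 := hg1
    have hg2' : chik (PadicInt.toZMod (p := ℓ)) g = 1 := hg2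
    rw [MonoidHom.mul_apply, MonoidHom.pow_apply, hg2', one_pow, mul_one]
    apply Units.ext
    rw [detChar_val, Units.val_one]
    apply det_unip
    have : (Matrix.toLin' (rep (PadicInt.toZMod (p := ℓ)) T g : Matrix (Fin n) (Fin n) (ZMod ℓ))).restrict
        (hU g) = 1 := by
      apply LinearMap.ext
      intro x
      apply Subtype.ext
      show (Matrix.toLin' (rep (PadicInt.toZMod (p := ℓ)) T g : Matrix (Fin n) (Fin n) (ZMod ℓ))) x.1 = x.1
      rw [hg1', Units.val_one, Matrix.toLin'_one]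
      rfl
    refine ⟨1, ?_⟩
    rw [this, pow_one]
    exact sub_self (1 : End (ZMod ℓ) U)
  · intro P hP τ hτ
    apply Units.ext
    exact h P hP τ hτ

/-- **All rational representations are irreducible.** -/
theorem rat_irr (hT : T.IsPure S w) (hR : IsRigid S w T)
    (U : Submodule ℚ_[ℓ] (Fin n → ℚ_[ℓ])) (hU : IsStable (T.rat ℓ) U) : U = ⊥ ∨ U = ⊤ := by
  obtain ⟨p, q, hp, hq, hpS, hqS, hpq, hrp, hrq⟩ := hR.twoPrimes
  obtain ⟨N, hN⟩ := hT.polarized
  obtain ⟨J, hJ, _, hsym, hinv⟩ := hN ℓ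
  obtain ⟨c, hc⟩ := hT.weights ℓ
  have hJ' : algebraMap ℤ_[ℓ] ℚ_[ℓ] J.det ≠ 0 := by
    intro h0
    exact hJ ((map_eq_zero_iff _ (IsFractionRing.injective ℤ_[ℓ] ℚ_[ℓ])).1 h0)
  have key : ∀ r : ℕ, r.Prime → r ∉ S → ℓ ≠ r → NoIsotropicRelation (T.poly r) (r ^ w) →
      U = ⊥ ∨ U = ⊤ := by
    intro r hr hrS hℓr hrel
    obtain ⟨M, hM0, hM⟩ := rel_transfer (hT.monic r hr hrS) hr.one_lt (hT.pure r hr hrS) c
    exact irr_core (algebraMap ℤ_[ℓ] ℚ_[ℓ]) hT hc (mink_rat hT) hJ' hsym hinv hr hrS hℓr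
      (M := M) (by exact_mod_cast hM0) hM hrel (hR.monodromy ℓ) U hU
  by_cases h : ℓ = p
  · exact key q hq hqS (by rw [h]; exact hpq) hrq
  · exact key p hp hpS h hrp

end

/-- **Almost all residual representations are irreducible.** -/
theorem res_irr {n : ℕ} {S : Finset ℕ} {w : ℕ} {T : IntegralSystem n} (hT : T.IsPure S w)
    (hR : IsRigid S w T) : ∃ N : ℕ, ∀ (ℓ : ℕ) [Fact ℓ.Prime], N < ℓ →
      ∀ U : Submodule (ZMod ℓ) (Fin n → ZMod ℓ), IsStable (T.res ℓ) U → U = ⊥ ∨ U = ⊤ := by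
  obtain ⟨p, _, hp, _, hpS, _, _, hrp, _⟩ := hR.twoPrimes
  obtain ⟨N₁, hN₁⟩ := hT.polarized
  obtain ⟨N₂, hN₂⟩ := hT.residualWeights
  obtain ⟨N₃, hN₃⟩ := hR.residual
  obtain ⟨M, hM0, hM⟩ := rel_transfer (hT.monic p hp hpS) hp.one_lt (hT.pure p hp hpS) (w * n)
  refine ⟨max (max N₁ N₂) (max N₃ (max p M.natAbs)), ?_⟩
  intro ℓ hℓ hlt U hU
  simp only [max_lt_iff] at hlt
  obtain ⟨⟨h1, h2⟩, h3, h4, h5⟩ := hlt
  obtain ⟨J, _, hJu, hsym, hinv⟩ := hN₁ ℓ
  refine irr_core (PadicInt.toZMod (p := ℓ)) hT (hN₂ ℓ h2) (mink_res hT)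
    ((hJu h1).map (PadicInt.toZMod (p := ℓ))).ne_zero hsym hinv hp hpS (by omega)
    (M := M) ?_ hM hrp (hN₃ ℓ h3) U hU
  intro h0
  rw [ZMod.intCast_zmod_eq_zero_iff_dvd] at h0
  have h6 := Int.le_of_dvd (by positivity : (0 : ℤ) < |M|) ((dvd_abs _ _).2 h0)
  rw [Int.abs_eq_natAbs] at h6
  omega

end Pool.Agent.Y126.SH
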