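import Pool.Agent.Y126.SH.Stab
import Pool.Agent.Y800.Frob2
import Pool.Agent.Y802.Cyc
import Pool.Agent.W215.FM.Gen

/-!
# Characters of the Galois group of `ℚ` which are trivial on all inertia groups
-/

set_option autoImplicit false

namespace Pool.Agent.Y126.SH

open Polynomial NumberField Pool.Agent.Y800

theorem not_mem_of_ne {p ℓ : ℕ} (hp : p.Prime) (hℓ : ℓ.Prime) (h : ℓ ≠ p) {P : Ideal ZBar}
    (hP : P.IsMaximal) (hpP : (p : ZBar) ∈ P) : (ℓ : ZBar) ∉ P := by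
  intro hℓP
  apply hP.ne_top
  rw [Ideal.eq_top_iff_one]
  have hc : Nat.Coprime p ℓ := (Nat.coprime_primes hp hℓ).2 (Ne.symm h)
  have h1 : IsCoprime (p : ℤ) (ℓ : ℤ) := Nat.isCoprime_iff_coprime.2 hc
  obtain ⟨a, b, hab⟩ := h1
  have h2 : (a : ZBar) * (p : ZBar) + (b : ZBar) * (ℓ : ZBar) = 1 := by
    exact_mod_cast congrArg (Int.cast : ℤ → ZBar) hab
  rw [← h2]
  exact P.add_mem (P.mul_mem_left _ hpP) (P.mul_mem_left _ hℓP)

theorem exists_prime_mem {P : Ideal ZBar} (hP : P.IsMaximal) : ∃ p : ℕ, p.Prime ∧ (p : ZBar) ∈ P := by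
  have hm : (P.under ℤ).IsMaximal := Ideal.IsMaximal.under ℤ P
  have hne : P.under ℤ ≠ ⊥ := Ring.ne_bot_of_isMaximal_of_not_isField hm Int.not_isField
  have hpr : Prime (Submodule.IsPrincipal.generator (P.under ℤ)) :=
    Submodule.IsPrincipal.prime_generator_of_isPrime _ hne
  have hmem : Submodule.IsPrincipal.generator (P.under ℤ) ∈ P.under ℤ :=
    Submodule.IsPrincipal.generator_mem _
  refine ⟨(Submodule.IsPrincipal.generator (P.under ℤ)).natAbs, Int.prime_iff_natAbs_prime.1 hpr, ?_⟩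
  have h1 : ((Submodule.IsPrincipal.generator (P.under ℤ) : ℤ) : ZBar) ∈ P := hmem
  rcases Int.natAbs_eq (Submodule.IsPrincipal.generator (P.under ℤ)) with h | h
  · rw [h] at h1
    rw [Int.cast_natCast] at h1
    exact h1
  · rw [h, Int.cast_neg, Int.cast_natCast] at h1
    exact P.neg_mem_iff.1 h1

/-- **Minkowski**: a character whose values on all inertia groups are trivial has values in each
open subgroup -/
theorem mem_of_inertia {A : Type} [CommGroup A] (θ : GQ →* A) (W : Subgroup A)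
    (hW : IsOpen ((W.comap θ : Subgroup GQ) : Set GQ))
    (h : ∀ P : Ideal ZBar, P.IsMaximal → ∀ τ : GQ, InInertia P τ → θ τ = 1) (g : GQ) : θ g ∈ W := by
  have h1 := Pool.Agent.W215.FM.main (A ⧸ W) ((QuotientGroup.mk' W).comp θ) (by
    have : ((QuotientGroup.mk' W).comp θ).ker = W.comap θ := by
      ext x
      rw [MonoidHom.mem_ker, MonoidHom.comp_apply, QuotientGroup.mk'_apply,
        QuotientGroup.eq_one_iff, Subgroup.mem_comap]
    rw [this]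
    exact hW) (by
    intro P hP τ hτ
    rw [MonoidHom.comp_apply, h P hP τ hτ, map_one]) g
  rw [MonoidHom.comp_apply, QuotientGroup.mk'_apply, QuotientGroup.eq_one_iff] at h1
  exact h1

section chi

variable (ℓ : ℕ) [hℓ : Fact ℓ.Prime]

theorem chi_eq : chi ℓ = Pool.Agent.Y802.chi ℚ ℓ := rfl

theorem continuous_chi : Continuous (chi ℓ) := Pool.Agent.Y802.continuous_chi ℚ ℓ

variable {ℓ}

theorem chi_inertia {p : ℕ} (hp : p.Prime) (h : ℓ ≠ p) {P : Ideal ZBar} (hP : P.IsMaximal)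
    (hpP : (p : ZBar) ∈ P) {τ : GQ} (hτ : InInertia P τ) : chi ℓ τ = 1 := by
  apply Units.ext
  have h1 := Pool.Agent.Y802.chi_frob' (K := ℚ) (p := ℓ) (q := 1) (P := P) hP.isPrime
    (not_mem_of_ne hp hℓ.out h hP hpP) (σ := τ) (fun x => by rw [pow_one]; exact hτ x)
  rw [chi_eq, h1]
  simp

theorem chi_frob {p : ℕ} (hp : p.Prime) (h : ℓ ≠ p) {P : Ideal ZBar} (hP : P.IsMaximal)
    (hpP : (p : ZBar) ∈ P) {σ : GQ} (hσ : IsGeomFrob p P σ) :
    (chi ℓ σ : ℤ_[ℓ]) * (p : ℤ_[ℓ]) = 1 := by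
  have h1 := Pool.Agent.Y802.chi_frob' (K := ℚ) (p := ℓ) (q := p) (P := P) hP.isPrime
    (not_mem_of_ne hp hℓ.out h hP hpP) (σ := σ⁻¹) (fun x => arith_of_geom hσ x)
  rw [← h1, chi_eq, map_inv, ← Units.val_mul, mul_inv_cancel, Units.val_one]

end chi

/-- the closed ball of radius less than one around one, as a subgroup -/
def ball (ℓ : ℕ) [Fact ℓ.Prime] (r : ℝ) (hr : 0 < r) (hr1 : r ≤ 1) : Subgroup (ℚ_[ℓ])ˣ where
  carrier := {u | ‖(u : ℚ_[ℓ]) - 1‖ < r}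
  one_mem' := by
    show ‖((1 : (ℚ_[ℓ])ˣ) : ℚ_[ℓ]) - 1‖ < r
    simpa using hr
  mul_mem' := by
    intro u v hu hv
    have hu' : ‖(u : ℚ_[ℓ]) - 1‖ < r := hu
    have hv' : ‖(v : ℚ_[ℓ]) - 1‖ < r := hv
    have hun : ‖(u : ℚ_[ℓ])‖ ≤ 1 := by
      have h1 : (u : ℚ_[ℓ]) = ((u : ℚ_[ℓ]) - 1) + 1 := by ring
      rw [h1]
      refine (Padic.nonarchimedean _ _).trans (max_le ?_ (by simp))
      exact hu'.le.trans hr1
    have h2 : ((u * v : (ℚ_[ℓ])ˣ) : ℚ_[ℓ]) - 1 = (u : ℚ_[ℓ]) * ((v : ℚ_[ℓ]) - 1) + ((u : ℚ_[ℓ]) - 1) := by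
      rw [Units.val_mul]; ring
    show ‖((u * v : (ℚ_[ℓ])ˣ) : ℚ_[ℓ]) - 1‖ < r
    rw [h2]
    refine (Padic.nonarchimedean _ _).trans_lt (max_lt ?_ hu')
    rw [norm_mul]
    exact (mul_le_of_le_one_left (norm_nonneg _) hun).trans_lt hv'
  inv_mem' := by
    intro u hu
    have hu' : ‖(u : ℚ_[ℓ]) - 1‖ < r := hu
    have hun : ‖(u : ℚ_[ℓ])‖ = 1 := by
      have h1 : (u : ℚ_[ℓ]) = ((u : ℚ_[ℓ]) - 1) + 1 := by ring
      rw [h1]
      have h2 : ‖(u : ℚ_[ℓ]) - 1‖ < ‖(1 : ℚ_[ℓ])‖ := by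
        rw [norm_one]; exact hu'.trans_le hr1
      rw [Padic.add_eq_max_of_ne (ne_of_lt h2), max_eq_right h2.le, norm_one]
    have h2 : ((u⁻¹ : (ℚ_[ℓ])ˣ) : ℚ_[ℓ]) - 1 = -((u⁻¹ : (ℚ_[ℓ])ˣ) : ℚ_[ℓ]) * ((u : ℚ_[ℓ]) - 1) := by
      have : ((u⁻¹ : (ℚ_[ℓ])ˣ) : ℚ_[ℓ]) * (u : ℚ_[ℓ]) = 1 := by rw [← Units.val_mul, inv_mul_cancel, Units.val_one]
      linear_combination this
    show ‖((u⁻¹ : (ℚ_[ℓ])ˣ) : ℚ_[ℓ]) - 1‖ < r
    rw [h2, norm_mul, norm_neg, Units.val_inv_eq_inv_val, norm_inv, hun, inv_one, one_mul]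
    exact hu'

/-- a continuous character with values in `ℚ_ℓ` which is trivial on all inertia groups is trivial -/
theorem eq_one_padic {ℓ : ℕ} [Fact ℓ.Prime] (θ : GQ →* (ℚ_[ℓ])ˣ)
    (hc : Continuous fun g => (θ g : ℚ_[ℓ]))
    (h : ∀ P : Ideal ZBar, P.IsMaximal → ∀ τ : GQ, InInertia P τ → θ τ = 1) (g : GQ) : θ g = 1 := by
  apply Units.ext
  rw [Units.val_one, ← sub_eq_zero, ← norm_eq_zero]
  by_contra hne
  have hpos : 0 < ‖(θ g : ℚ_[ℓ]) - 1‖ := lt_of_le_of_ne (norm_nonneg _) (Ne.symm hne)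
  set r := min 1 ‖(θ g : ℚ_[ℓ]) - 1‖ with hr
  have hr0 : 0 < r := lt_min one_pos hpos
  have h1 := mem_of_inertia θ (ball ℓ r hr0 (min_le_left _ _)) (by
    have : (((ball ℓ r hr0 (min_le_left _ _)).comap θ : Subgroup GQ) : Set GQ) =
      {g | ‖(θ g : ℚ_[ℓ]) - 1‖ < r} := rfl
    rw [this]
    exact isOpen_lt ((hc.sub continuous_const).norm) continuous_const) h g
  have h2 : ‖(θ g : ℚ_[ℓ]) - 1‖ < r := h1
  exact absurd h2 (not_lt.2 (min_le_right _ _))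

/-- a character with open kernel which is trivial on all inertia groups is trivial -/
theorem eq_one_disc {A : Type} [CommGroup A] (θ : GQ →* A) (U : Subgroup GQ)
    (hU : IsOpen (U : Set GQ)) (hUθ : ∀ g ∈ U, θ g = 1)
    (h : ∀ P : Ideal ZBar, P.IsMaximal → ∀ τ : GQ, InInertia P τ → θ τ = 1) (g : GQ) : θ g = 1 := by
  have h1 := mem_of_inertia θ ⊥ (Subgroup.isOpen_mono (H₁ := U) (fun x hx => by
    rw [Subgroup.mem_comap, Subgroup.mem_bot]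
    exact hUθ x hx) hU) h g
  exact Subgroup.mem_bot.1 h1

end Pool.Agent.Y126.SH
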