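import Pool.Agent.Y126.SH.Stab
import Pool.Agent.Y142.Core

/-!
# Jordan blocks and stable decompositions; irreducibility
-/

set_option autoImplicit false

namespace Pool.Agent.Y126.SH

open Module Polynomial Pool.Agent.Y800

section blocks

variable {k : Type*} [Field k] {X : Type*} [AddCommGroup X] [Module k X] [FiniteDimensional k X]

/-- the rank of the powers -/
noncomputable def rk (N : End k X) (j : ℕ) : ℕ := finrank k (LinearMap.range (N ^ j))

theorem rk_diff (N : End k X) (j : ℕ) :
    finrank k ((LinearMap.ker N ⊓ LinearMap.range (N ^ j) : Submodule k X)) + rk N (j + 1) = rk N j := by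
  have h1 := LinearMap.finrank_range_add_finrank_ker (N.domRestrict (LinearMap.range (N ^ j)))
  have h2 : LinearMap.range (N.domRestrict (LinearMap.range (N ^ j))) =
      LinearMap.range (N ^ (j + 1)) := by
    rw [LinearMap.range_domRestrict, pow_succ', Module.End.mul_eq_comp, LinearMap.range_comp]
  have h3 : finrank k (LinearMap.ker (N.domRestrict (LinearMap.range (N ^ j)))) =
      finrank k ((LinearMap.ker N ⊓ LinearMap.range (N ^ j) : Submodule k X)) := by
    rw [← Submodule.finrank_map_subtype_eq, LinearMap.ker_domRestrict, Submodule.map_comap_subtype,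
      inf_comm]
  rw [h2, h3] at h1
  unfold rk
  omega

theorem rk_concave (N : End k X) (j : ℕ) : rk N (j + 1) + rk N (j + 1) ≤ rk N j + rk N (j + 2) := by
  have h1 := rk_diff N j
  have h2 := rk_diff N (j + 1)
  have h3 : finrank k ((LinearMap.ker N ⊓ LinearMap.range (N ^ (j + 1)) : Submodule k X)) ≤
      finrank k ((LinearMap.ker N ⊓ LinearMap.range (N ^ j) : Submodule k X)) := by
    apply Submodule.finrank_mono
    apply inf_le_inf_left
    rw [pow_succ]
    rintro _ ⟨y, rfl⟩
    exact ⟨N y, rfl⟩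
  rw [show j + 1 + 1 = j + 2 from rfl] at h2
  omega

theorem rk_anti (N : End k X) (j : ℕ) : rk N (j + 1) ≤ rk N j := by
  have h1 := rk_diff N j
  omega

/-- the number of blocks -/
def nb (r : ℕ → ℕ) (j : ℕ) : ℕ := (r (j - 1) - r j) - (r j - r (j + 1))

theorem sum_nb {r : ℕ → ℕ} (h1 : ∀ j, r (j + 1) ≤ r j)
    (h2 : ∀ j, r (j + 1) + r (j + 1) ≤ r j + r (j + 2)) (m : ℕ) :
    ∑ j ∈ Finset.range (m + 1), j * nb r j + m * (r m - r (m + 1)) + r m = r 0 := by
  induction m with
  | zero => simp
  | succ m ih =>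
    rw [Finset.sum_range_succ]
    have h3 := h1 m
    have h4 := h1 (m + 1)
    have h5 := h2 m
    have h6 : nb r (m + 1) = (r m - r (m + 1)) - (r (m + 1) - r (m + 2)) := rfl
    rw [h6]
    obtain ⟨x, hx⟩ := Nat.exists_eq_add_of_le h4
    obtain ⟨y, hy⟩ := Nat.exists_eq_add_of_le h3
    rw [show m + 1 + 1 = m + 2 from rfl] at hx ⊢
    have h7 : r (m + 1) - r (m + 2) = x := by omega
    have h8 : r m - r (m + 1) = y := by omega
    rw [h8] at ih
    rw [h7, h8]
    have h9 : x ≤ y := by omega
    obtain ⟨z, rfl⟩ := Nat.exists_eq_add_of_le h9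
    rw [Nat.add_sub_cancel_left]
    nlinarith [ih, hy]

/-- A decomposition into stable subspaces decomposes the ranks. -/
theorem rk_add {N : End k X} {U U' : Submodule k X} (hc : IsCompl U U') (hU : ∀ x ∈ U, N x ∈ U)
    (hU' : ∀ x ∈ U', N x ∈ U') (j : ℕ) :
    rk N j = rk (N.restrict hU) j + rk (N.restrict hU') j := by
  have h1 : ∀ (W : Submodule k X) (hW : ∀ x ∈ W, N x ∈ W) (x : W),
      (((N.restrict hW) ^ j) x : X) = (N ^ j) x := by
    intro W hW
    induction j with
    | zero => intro x; simp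
    | succ j ih =>
      intro x
      rw [pow_succ', pow_succ', Module.End.mul_apply, Module.End.mul_apply, ← ih x]
      rfl
  have h2 : ∀ (W : Submodule k X) (hW : ∀ x ∈ W, N x ∈ W),
      (LinearMap.range ((N.restrict hW) ^ j)).map W.subtype = W.map (N ^ j) := by
    intro W hW
    ext y
    constructor
    · rintro ⟨_, ⟨x, rfl⟩, rfl⟩
      exact ⟨x, x.2, (h1 W hW x).symm⟩
    · rintro ⟨x, hx, rfl⟩
      exact ⟨_, ⟨⟨x, hx⟩, rfl⟩, h1 W hW ⟨x, hx⟩⟩
  have h3 : ∀ (W : Submodule k X) (hW : ∀ x ∈ W, N x ∈ W), W.map (N ^ j) ≤ W := by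
    intro W hW
    rw [← h2 W hW]
    rintro _ ⟨y, _, rfl⟩
    exact y.2
  have h4 : LinearMap.range (N ^ j) = U.map (N ^ j) ⊔ U'.map (N ^ j) := by
    rw [← Submodule.map_sup, hc.sup_eq_top, LinearMap.range_eq_map]
  have h5 : U.map (N ^ j) ⊓ U'.map (N ^ j) = ⊥ := by
    rw [eq_bot_iff, ← hc.inf_eq_bot]
    exact inf_le_inf (h3 U hU) (h3 U' hU')
  have h6 := Submodule.finrank_sup_add_finrank_inf_eq (U.map (N ^ j)) (U'.map (N ^ j))
  rw [h5, finrank_bot, add_zero, ← h4] at h6
  unfold rk
  rw [h6, ← h2 U hU, ← h2 U' hU', Submodule.finrank_map_subtype_eq,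
    Submodule.finrank_map_subtype_eq]

end blocks

section irr

variable {k : Type} [Field k] {n : ℕ}

/-- the representation by endomorphisms -/
noncomputable def lin (ρ : GQ →* GL (Fin n) k) : GQ →* ((Fin n → k) →ₗ[k] (Fin n → k)) where
  toFun g := Matrix.toLin' (ρ g : Matrix (Fin n) (Fin n) k)
  map_one' := by rw [map_one, Units.val_one, Matrix.toLin'_one]; rfl
  map_mul' g h := by rw [map_mul, Units.val_mul, Matrix.toLin'_mul]; rfl

theorem lin_apply (ρ : GQ →* GL (Fin n) k) (g : GQ) :
    lin ρ g = Matrix.toLin' (ρ g : Matrix (Fin n) (Fin n) k) := rfl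

/-- If there are no stable isotropic subspaces then the representation is irreducible. -/
theorem irreducible_of (ρ : GQ →* GL (Fin n) k) (c : GQ → k) {J : Matrix (Fin n) (Fin n) k}
    (hsym : J.transpose = J ∨ J.transpose = -J)
    (hinv : ∀ g x y, Matrix.toBilin' J (lin ρ g x) (lin ρ g y) = c g * Matrix.toBilin' J x y)
    (hno : ∀ U : Submodule k (Fin n → k), IsStable ρ U →
      (∀ x ∈ U, ∀ y ∈ U, Matrix.toBilin' J x y = 0) → U = ⊥)
    (hsum : NoPartialSums ρ) (U : Submodule k (Fin n → k)) (hU : IsStable ρ U) : U = ⊥ ∨ U = ⊤ := by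
  have hrefl : (Matrix.toBilin' J).IsRefl := by
    intro x y hxy
    have h1 : Matrix.toBilin' J y x = Matrix.toBilin' J.transpose x y := by
      rw [Matrix.toBilin'_apply', Matrix.toBilin'_apply', Matrix.mulVec_transpose,
        dotProduct_comm x, Matrix.dotProduct_mulVec]
    rw [h1]
    rcases hsym with h | h
    · rw [h, hxy]
    · rw [h, map_neg, LinearMap.neg_apply, LinearMap.neg_apply, hxy, neg_zero]
  obtain ⟨hc, hst⟩ := Pool.Agent.Y142.isCompl_of_no_isotropic (lin ρ) c hrefl hinv (by
    intro W hW hiso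
    apply hno W (fun g u hu => hW g hu)
    intro x hx y hy
    exact hiso hy x hx) U (fun g u hu => hU g u hu)
  by_contra hcon
  push Not at hcon
  obtain ⟨h0, h1⟩ := hcon
  have hd : 0 < finrank k U := by
    rw [Nat.pos_iff_ne_zero, Ne, Submodule.finrank_eq_zero]
    exact h0
  have hdn : finrank k U < n := by
    have h2 := Submodule.finrank_lt h1
    rwa [finrank_fin_fun] at h2
  obtain ⟨g, hg, hb⟩ := hsum _ hd hdn
  obtain ⟨u, hu⟩ : ∃ u : Matrix (Fin n) (Fin n) k, (ρ g : Matrix (Fin n) (Fin n) k) = u := ⟨_, rfl⟩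
  rw [hu] at hg hb
  let N : End k (Fin n → k) := Matrix.toLin' (u - 1)
  have hNlin : N = lin ρ g - 1 := by
    show Matrix.toLin' (u - 1) = _
    rw [map_sub, Matrix.toLin'_one, lin_apply, hu]
    rfl
  have hNpow : ∀ j, N ^ j = Matrix.toLin' ((u - 1) ^ j) := by
    intro j
    rw [Matrix.toLin'_pow]
  have hNU : ∀ x ∈ U, N x ∈ U := by
    intro x hx
    rw [hNlin]
    exact U.sub_mem (hU g x hx) hx
  have hNU' : ∀ x ∈ (Matrix.toBilin' J).orthogonal U, N x ∈ (Matrix.toBilin' J).orthogonal U := by
    intro x hx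
    rw [hNlin]
    exact Submodule.sub_mem _ (hst g hx) hx
  have hrank : ∀ j, ((u - 1) ^ j).rank = rk N j := by
    intro j
    unfold rk
    rw [hNpow]
    rfl
  have hadd := rk_add hc hNU hNU'
  refine hb (nb (rk (N.restrict hNU))) ?_ ?_
  · intro j
    unfold jordanBlocks nb
    rw [hrank, hrank, hrank, hadd, hadd, hadd]
    rcases j with _ | j
    · simp
    · rw [Nat.add_sub_cancel]
      have h2 := rk_concave (N.restrict hNU) j
      have h3 := rk_concave (N.restrict hNU') j
      have h4 := rk_anti (N.restrict hNU) j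
      have h5 := rk_anti (N.restrict hNU') j
      have h6 := rk_anti (N.restrict hNU) (j + 1)
      have h7 := rk_anti (N.restrict hNU') (j + 1)
      rw [show j + 1 + 1 = j + 2 from rfl] at *
      omega
  · have h2 := sum_nb (rk_anti (N.restrict hNU)) (rk_concave (N.restrict hNU)) n
    have h3 : ∀ m, n ≤ m → rk (N.restrict hNU) m = 0 := by
      intro m hm
      have h4 : N ^ m = 0 := by
        have h5 : (u - 1) ^ n = 0 := by
          have h6 := Matrix.isNilpotent_charpoly_sub_pow_of_isNilpotent hg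
          have h7 := Matrix.aeval_self_charpoly (u - 1)
          have h8 : (u - 1).charpoly = X ^ n := by
            have := (h6.eq_zero)
            rw [sub_eq_zero] at this
            rw [this, Fintype.card_fin]
          rw [h8, map_pow, aeval_X] at h7
          exact h7
        rw [hNpow, pow_eq_zero_of_le hm h5, map_zero]
      have h5 : (N.restrict hNU) ^ m = 0 := by
        rw [Module.End.pow_restrict]
        apply LinearMap.ext
        intro x
        apply Subtype.ext
        rw [LinearMap.restrict_apply]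
        show (N ^ m) x = 0
        rw [h4, LinearMap.zero_apply]
      unfold rk
      rw [h5, LinearMap.range_zero, finrank_bot]
    rw [h3 n le_rfl, h3 (n + 1) (Nat.le_succ _), Nat.sub_zero, Nat.mul_zero, add_zero, add_zero] at h2
    rw [h2]
    unfold rk
    rw [pow_zero]
    show finrank k (LinearMap.range (1 : End k U)) = finrank k U
    rw [Module.End.one_eq_id, LinearMap.range_id, finrank_top]

end irr

end Pool.Agent.Y126.SH
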