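import Pool.Agent.Y800.Ext

/-!
# Relations between the roots of an integral polynomial modulo almost all primes
-/

set_option autoImplicit false

namespace Pool.Agent.Y126.SH

open Polynomial NumberField Pool.Agent.Y800

theorem exists_le_map {α β : Type*} (f : α → β) (C : Multiset β) :
    ∀ R : Multiset α, C ≤ R.map f → ∃ T ≤ R, T.map f = C := by
  classical
  induction C using Multiset.induction_on with
  | empty => intro R _; exact ⟨0, Multiset.zero_le _, rfl⟩
  | cons a C ih =>
    intro R hR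
    have ha : a ∈ R.map f := Multiset.mem_of_le hR (Multiset.mem_cons_self _ _)
    obtain ⟨r, hr, rfl⟩ := Multiset.mem_map.1 ha
    have h1 : R.map f = f r ::ₘ (R.erase r).map f := by
      conv_lhs => rw [← Multiset.cons_erase hr]
      rw [Multiset.map_cons]
    rw [h1, Multiset.cons_le_cons_iff] at hR
    obtain ⟨T, hT, hTC⟩ := ih _ hR
    refine ⟨r ::ₘ T, ?_, by rw [Multiset.map_cons, hTC]⟩
    rw [← Multiset.cons_erase hr]
    exact Multiset.cons_le_cons _ hT

theorem exists_add_le_map {α β : Type*} (f : α → β) {A A' : Multiset β} {R : Multiset α}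
    (h : A + A' ≤ R.map f) : ∃ T T' : Multiset α, T + T' ≤ R ∧ T.map f = A ∧ T'.map f = A' := by
  classical
  obtain ⟨T₀, h0, h1⟩ := exists_le_map f (A + A') R h
  have h2 : A ≤ T₀.map f := by rw [h1]; exact Multiset.le_add_right _ _
  obtain ⟨T, h3, h4⟩ := exists_le_map f A T₀ h2
  obtain ⟨T', rfl⟩ := Multiset.le_iff_exists_add.1 h3
  refine ⟨T, T', h0, h4, ?_⟩
  rw [Multiset.map_add, h4] at h1
  exact add_left_cancel h1

/-- integral polynomials split over the ring of all algebraic integers -/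
theorem exists_roots {P : ℤ[X]} (hP : P.Monic) : ∃ R : Multiset ZBar,
    P.map (algebraMap ℤ ZBar) = (R.map fun r => X - C r).prod := by
  have hint : ∀ z ∈ P.aroots QBar, IsIntegral ℤ z := by
    intro z hz
    rw [mem_aroots] at hz
    exact ⟨P, hP, by rw [← aeval_def]; exact hz.2⟩
  refine ⟨(P.aroots QBar).attach.map fun z => ⟨z.1, hint z.1 z.2⟩, ?_⟩
  apply Polynomial.map_injective (algebraMap ZBar QBar) RingOfIntegers.coe_injective
  rw [Polynomial.map_map, Polynomial.map_multiset_prod, Multiset.map_map, Multiset.map_map]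
  have h1 : (algebraMap ZBar QBar).comp (algebraMap ℤ ZBar) = algebraMap ℤ QBar := RingHom.ext_int _ _
  rw [h1]
  have h2 := (IsAlgClosed.splits (P.map (algebraMap ℤ QBar))).eq_prod_roots_of_monic (hP.map _)
  conv_lhs => rw [h2, ← aroots_def, ← Multiset.attach_map_val (P.aroots QBar), Multiset.map_map]
  congr 1
  apply Multiset.map_congr rfl
  intro z _
  simp only [Function.comp_apply, Polynomial.map_sub, map_X, map_C]
  rfl

theorem roots_map {P : ℤ[X]} {R : Multiset ZBar}
    (hR : P.map (algebraMap ℤ ZBar) = (R.map fun r => X - C r).prod) {Ω : Type*} [Field Ω]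
    (ψ : ZBar →+* Ω) : (P.map (Int.castRingHom Ω)).roots = R.map ψ := by
  have h1 : P.map (Int.castRingHom Ω) = ((R.map ψ).map fun r => X - C r).prod := by
    have h2 : Int.castRingHom Ω = ψ.comp (algebraMap ℤ ZBar) := RingHom.ext_int _ _
    rw [h2, ← Polynomial.map_map, hR, Polynomial.map_multiset_prod, Multiset.map_map,
      Multiset.map_map]
    congr 1
    apply Multiset.map_congr rfl
    intro z _
    simp
  rw [h1, roots_multiset_prod_X_sub_C]

/-- For almost all characteristics the relations come from complex relations. -/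
theorem rel_transfer {P : ℤ[X]} (hP : P.Monic) {p w : ℕ} (hp : 1 < p)
    (hpure : ∀ z : ℂ, z ∈ P.aroots ℂ → ‖z‖ ^ 2 = (p : ℝ) ^ w) (B : ℕ) :
    ∃ M : ℤ, M ≠ 0 ∧ ∀ (Ω : Type) [Field Ω] [IsAlgClosed Ω], (M : Ω) ≠ 0 →
      ∀ (A : Multiset Ω) (a : ℕ), a ≤ B →
        A + A.map (fun z => ((p ^ w : ℕ) : Ω) / z) ≤ (P.map (Int.castRingHom Ω)).roots →
        A.prod = (p : Ω) ^ a → A ≠ 0 →
        ∃ A' : Multiset ℂ, A' ≠ 0 ∧ A' + A'.map (fun z => ((p ^ w : ℕ) : ℂ) / z) ≤ P.aroots ℂ ∧
          A'.prod ^ 2 = ((p ^ w : ℕ) : ℂ) ^ Multiset.card A' := by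
  classical
  obtain ⟨R, hR⟩ := exists_roots hP
  let E : Finset ZBar :=
    ((R ×ˢ R).map fun x : ZBar × ZBar => x.1 * x.2 - ((p ^ w : ℕ) : ZBar)).toFinset ∪
    ((R.powerset ×ˢ Multiset.range (B + 1)).map
      fun x : Multiset ZBar × ℕ => x.1.prod - (p : ZBar) ^ x.2).toFinset
  have hm : ∀ e : ZBar, ∃ m : ℤ, e ≠ 0 → (m ≠ 0 ∧ ∃ r, e * r = m) := by
    intro e
    by_cases he : e = 0
    · exact ⟨0, fun h => absurd he h⟩
    · obtain ⟨m, r, h1, h2⟩ := exists_int_mul he
      exact ⟨m, fun _ => ⟨h1, r, h2⟩⟩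
  choose m hm using hm
  refine ⟨p * ∏ e ∈ E.filter (fun e => e ≠ 0), m e, ?_, ?_⟩
  · apply mul_ne_zero
    · exact_mod_cast (by omega : p ≠ 0)
    · rw [Finset.prod_ne_zero_iff]
      intro e he
      exact (hm e (Finset.mem_filter.1 he).2).1
  intro Ω _ _ hM A a ha hA hprod hA0
  obtain ⟨ψ, hψ⟩ := extend_gen (R := ℤ) (S := ZBar) (k := Ω) (Int.castRingHom Ω)
  have hψi : ∀ i : ℤ, ψ (i : ZBar) = (i : Ω) := fun i => map_intCast ψ i
  rw [Int.cast_mul, Int.cast_natCast] at hM
  have hpΩ : (p : Ω) ≠ 0 := left_ne_zero_of_mul hM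
  have hgood : ∀ e ∈ E, ψ e = 0 → e = 0 := by
    intro e he h0
    by_contra hne
    apply right_ne_zero_of_mul hM
    rw [Int.cast_prod]
    apply Finset.prod_eq_zero (Finset.mem_filter.2 ⟨he, hne⟩)
    obtain ⟨_, r, hr⟩ := hm e hne
    rw [← hψi, ← hr, map_mul, h0, zero_mul]
  rw [roots_map hR ψ] at hA
  obtain ⟨T, T', hTT, hT, hT'⟩ := exists_add_le_map ψ hA
  have hTR : T ≤ R := (Multiset.le_add_right _ _).trans hTT
  have hTR' : T' ≤ R := (Multiset.le_add_left _ _).trans hTT
  -- the elements of `T` do not vanish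
  have hne : ∀ t ∈ T, ψ t ≠ 0 := by
    intro t ht h0
    have h1 : A.prod = 0 := Multiset.prod_eq_zero (by
      rw [← h0, ← hT]
      exact Multiset.mem_map_of_mem ψ ht)
    rw [hprod] at h1
    exact pow_ne_zero a hpΩ h1
  have hrel : Multiset.Rel (fun t t' => t * t' = ((p ^ w : ℕ) : ZBar)) T T' := by
    have h1 : Multiset.Rel (fun x y => x = y) (A.map (fun z => ((p ^ w : ℕ) : Ω) / z)) (T'.map ψ) :=
      Multiset.rel_eq.2 hT'.symm
    rw [← hT, Multiset.map_map, Multiset.rel_map] at h1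
    refine h1.mono ?_
    intro t ht t' ht' h2
    rw [Function.comp_apply, div_eq_iff (hne t ht)] at h2
    rw [← sub_eq_zero]
    apply hgood
    · apply Finset.mem_union_left
      rw [Multiset.mem_toFinset]
      exact Multiset.mem_map.2 ⟨(t, t'), Multiset.mem_product.2
        ⟨Multiset.mem_of_le hTR ht, Multiset.mem_of_le hTR' ht'⟩, rfl⟩
    · rw [map_sub, map_mul, map_natCast, h2]
      ring
  have hTp : T.prod = (p : ZBar) ^ a := by
    rw [← sub_eq_zero]
    apply hgood
    · apply Finset.mem_union_right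
      rw [Multiset.mem_toFinset]
      exact Multiset.mem_map.2 ⟨(T, a), Multiset.mem_product.2
        ⟨Multiset.mem_powerset.2 hTR, Multiset.mem_range.2 (by omega)⟩, rfl⟩
    · rw [map_sub, map_pow, map_natCast, ← hprod, ← hT, map_multiset_prod, sub_self]
  -- complex numbers
  obtain ⟨i, _⟩ := extend_gen (R := ℤ) (S := ZBar) (k := ℂ) (Int.castRingHom ℂ)
  have hroots : P.aroots ℂ = R.map i := roots_map hR i
  have hs : ((p ^ w : ℕ) : ℂ) ≠ 0 := by
    exact_mod_cast pow_ne_zero w (by omega : p ≠ 0)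
  have hdual : (T.map i).map (fun z => ((p ^ w : ℕ) : ℂ) / z) = T'.map i := by
    apply Multiset.rel_eq.1
    rw [Multiset.map_map, Multiset.rel_map]
    refine hrel.mono ?_
    intro t _ t' _ h2
    have h3 : i t * i t' = ((p ^ w : ℕ) : ℂ) := by rw [← map_mul, h2, map_natCast]
    rw [Function.comp_apply, div_eq_iff (left_ne_zero_of_mul (h3 ▸ hs)), ← h3, mul_comm]
  refine ⟨T.map i, ?_, ?_, ?_⟩
  · intro h0
    rw [Multiset.map_eq_zero] at h0
    apply hA0
    rw [← hT, h0, Multiset.map_zero]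
  · rw [hdual, ← Multiset.map_add, hroots]
    exact Multiset.map_le_map hTT
  · have h1 : (T.map i).prod = (p : ℂ) ^ a := by
      rw [← map_multiset_prod, hTp, map_pow, map_natCast]
    have h2 : ∀ T₁ : Multiset ZBar, T₁ ≤ R → ‖(T₁.map i).prod‖ ^ 2 = (p : ℝ) ^ (w * Multiset.card T₁) := by
      intro T₁
      induction T₁ using Multiset.induction_on with
      | empty => intro _; simp
      | cons t T₁ ih =>
        intro hle
        rw [Multiset.map_cons, Multiset.prod_cons, norm_mul, mul_pow,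
          ih ((Multiset.le_cons_self _ _).trans hle), hpure (i t) (by
            rw [hroots]
            exact Multiset.mem_map_of_mem i (Multiset.mem_of_le hle (Multiset.mem_cons_self _ _))),
          Multiset.card_cons, mul_add, mul_one, pow_add, mul_comm]
    have h3 := h2 T hTR
    rw [h1, norm_pow, Complex.norm_natCast, ← pow_mul] at h3
    have h4 : a * 2 = w * Multiset.card T :=
      pow_right_injective₀ (by exact_mod_cast (by omega : 0 < p)) (by exact_mod_cast (by omega : p ≠ 1)) h3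
    rw [h1, ← pow_mul, h4, Multiset.card_map, Nat.cast_pow, ← pow_mul]

end Pool.Agent.Y126.SH
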