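import Pool.Agent.Y126.SH.Lin
import Pool.Agent.Y126.SH.Ari
import Pool.Agent.Y126.SH.Rel
import Pool.Agent.Y126.SH.Blk

/-!
# Irreducibility of the rational and of the residual representations
-/

set_option autoImplicit false

namespace Pool.Agent.Y126.SH

open Module Polynomial Pool.Agent.Y800

theorem det_unip {k : Type*} [Field k] {W : Type*} [AddCommGroup W] [Module k W]
    [FiniteDimensional k W] {f : End k W} (h : IsNilpotent (f - 1)) : LinearMap.det f = 1 := by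
  have h1 := h.charpoly_eq_X_pow_finrank
  have h2 := congrArg (Polynomial.eval (-1)) h1
  rw [LinearMap.eval_charpoly, eval_pow, eval_X] at h2
  have h3 : algebraMap k (End k W) (-1) - (f - 1) = -f := by
    rw [map_neg, map_one]; abel
  have h4 : (-f : End k W) = (-1 : k) • f := by simp
  rw [h3, h4, LinearMap.det_smul] at h2
  have h5 : ((-1 : k)) ^ finrank k W ≠ 0 := pow_ne_zero _ (by simp)
  exact mul_left_cancel₀ h5 (by rw [h2, mul_one])

section core

variable {n : ℕ} {S : Finset ℕ} {w : ℕ} {T : IntegralSystem n} {ℓ : ℕ} [hℓ : Fact ℓ.Prime]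
  {k : Type} [Field k] (φ : ℤ_[ℓ] →+* k)

/-- the representation with coefficients in `k` -/
noncomputable def rep (T : IntegralSystem n) : GQ →* GL (Fin n) k :=
  (Matrix.GeneralLinearGroup.map φ).comp (T.rho ℓ)

theorem rep_val (g : GQ) : (rep φ T g : Matrix (Fin n) (Fin n) k) =
    (T.rho ℓ g : Matrix (Fin n) (Fin n) ℤ_[ℓ]).map φ := rfl

/-- the cyclotomic character with values in `k` -/
noncomputable def chik : GQ →* kˣ := (Units.map (φ : ℤ_[ℓ] →* k)).comp (chi ℓ)

theorem chik_val (g : GQ) : (chik φ g : k) = φ (chi ℓ g : ℤ_[ℓ]) := rfl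

/-- the determinant of a stable subspace as a character -/
noncomputable def detChar (ρ : GQ →* GL (Fin n) k) (U : Submodule k (Fin n → k))
    (hU : IsStable ρ U) : GQ →* kˣ :=
  Pool.Agent.Y142.detRep (lin ρ) U (fun g u hu => hU g u hu)

theorem detChar_val (ρ : GQ →* GL (Fin n) k) (U : Submodule k (Fin n → k))
    (hU : IsStable ρ U) (g : GQ) : (detChar ρ U hU g : k) = detOn ρ U hU g := rfl

/-- away from `ℓ` the inertia groups act trivially on determinants -/
theorem det_inertia (hT : T.IsPure S w) {U : Submodule k (Fin n → k)} (hU : IsStable (rep φ T) U)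
    {p : ℕ} (hp : p.Prime) (hpℓ : ℓ ≠ p) {P : Ideal ZBar} (hP : P.IsMaximal) (hpP : (p : ZBar) ∈ P)
    {τ : GQ} (hτ : InInertia P τ) : detOn (rep φ T) U hU τ = 1 := by
  apply det_unip
  have h1 : IsNilpotent ((T.rho ℓ τ : Matrix (Fin n) (Fin n) ℤ_[ℓ]) - 1) := by
    by_cases hpS : p ∈ S
    · exact hT.semistable p hp hpS ℓ hpℓ P hP hpP τ hτ
    · rw [hT.unramified p hp hpS ℓ hpℓ P hP hpP τ hτ, Units.val_one, sub_self]
      exact IsNilpotent.zero
  obtain ⟨m, hm⟩ := h1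
  have h2 : ((rep φ T τ : Matrix (Fin n) (Fin n) k) - 1) ^ m = 0 := by
    have h3 : ((rep φ T τ : Matrix (Fin n) (Fin n) k) - 1) =
        φ.mapMatrix ((T.rho ℓ τ : Matrix (Fin n) (Fin n) ℤ_[ℓ]) - 1) := by
      rw [map_sub, map_one]; rfl
    rw [h3, ← map_pow, hm, map_zero]
  refine ⟨m, ?_⟩
  have h4 : (Matrix.toLin' (rep φ T τ : Matrix (Fin n) (Fin n) k)).restrict (hU τ) - 1 =
      (Matrix.toLin' ((rep φ T τ : Matrix (Fin n) (Fin n) k) - 1)).restrict
        (p := U) (q := U) (fun x hx => by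
          rw [map_sub, Matrix.toLin'_one]
          exact U.sub_mem (hU τ x hx) hx) := by
    apply LinearMap.ext
    intro x
    apply Subtype.ext
    show (Matrix.toLin' (rep φ T τ : Matrix (Fin n) (Fin n) k)) x.1 - x.1 =
      (Matrix.toLin' ((rep φ T τ : Matrix (Fin n) (Fin n) k) - 1)) x.1
    rw [map_sub, Matrix.toLin'_one]
    rfl
  rw [h4, Module.End.pow_restrict]
  apply LinearMap.ext
  intro x
  apply Subtype.ext
  rw [LinearMap.restrict_apply]
  show ((Matrix.toLin' ((rep φ T τ : Matrix (Fin n) (Fin n) k) - 1)) ^ m) x = 0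
  rw [← Matrix.toLin'_pow, h2, map_zero, LinearMap.zero_apply]

/-- The conclusion of Minkowski's theorem for the determinants of stable subspaces. -/
def Mink (T : IntegralSystem n) : Prop :=
  ∀ (U : Submodule k (Fin n → k)) (hU : IsStable (rep φ T) U) (a : ℕ),
    (∀ P : Ideal ZBar, P.IsMaximal → ∀ τ : GQ, InInertia P τ →
      detOn (rep φ T) U hU τ * φ (chi ℓ τ : ℤ_[ℓ]) ^ a = 1) →
    ∀ g, detOn (rep φ T) U hU g * φ (chi ℓ g : ℤ_[ℓ]) ^ a = 1

theorem irr_core (hT : T.IsPure S w) {c : ℕ}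
    (hw : WeightsAt (rep φ T) (fun g => φ (chi ℓ g : ℤ_[ℓ])) ℓ c) (hmink : Mink φ T)
    {J : Matrix (Fin n) (Fin n) ℤ_[ℓ]} (hJ : φ J.det ≠ 0)
    (hsym : J.transpose = J ∨ J.transpose = -J)
    (hinv : ∀ g : GQ, (chi ℓ g : ℤ_[ℓ]) ^ w •
      ((T.rho ℓ g : Matrix (Fin n) (Fin n) ℤ_[ℓ]).transpose * J * (T.rho ℓ g)) = J)
    {p : ℕ} (hp : p.Prime) (hpS : p ∉ S) (hpℓ : ℓ ≠ p) {M : ℤ} (hMk : (M : k) ≠ 0)
    (hM : ∀ (Ω : Type) [Field Ω] [IsAlgClosed Ω], (M : Ω) ≠ 0 →
      ∀ (A : Multiset Ω) (a : ℕ), a ≤ c →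
        A + A.map (fun z => ((p ^ w : ℕ) : Ω) / z) ≤ ((T.poly p).map (Int.castRingHom Ω)).roots →
        A.prod = (p : Ω) ^ a → A ≠ 0 →
        ∃ A' : Multiset ℂ, A' ≠ 0 ∧
          A' + A'.map (fun z => ((p ^ w : ℕ) : ℂ) / z) ≤ (T.poly p).aroots ℂ ∧
          A'.prod ^ 2 = ((p ^ w : ℕ) : ℂ) ^ Multiset.card A')
    (hrel : NoIsotropicRelation (T.poly p) (p ^ w)) (hsum : NoPartialSums (rep φ T))
    (U : Submodule k (Fin n → k)) (hU : IsStable (rep φ T) U) : U = ⊥ ∨ U = ⊤ := by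
  classical
  let B := Matrix.toBilin' (J.map φ)
  have hchi : ∀ g, φ (chi ℓ g : ℤ_[ℓ]) ≠ 0 := fun g => (chik φ g).ne_zero
  have hB : ∀ g x y, B (lin (rep φ T) g x) (lin (rep φ T) g y) =
      ((φ (chi ℓ g : ℤ_[ℓ])) ^ w)⁻¹ * B x y := by
    intro g x y
    have h1 := congrArg (fun X => Matrix.map X φ) (hinv g)
    have h2 : (φ (chi ℓ g : ℤ_[ℓ])) ^ w • ((rep φ T g : Matrix (Fin n) (Fin n) k).transpose *
        J.map φ * (rep φ T g : Matrix (Fin n) (Fin n) k)) = J.map φ := by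
      refine Eq.trans ?_ h1
      have h3 : ∀ (c : ℤ_[ℓ]) (X : Matrix (Fin n) (Fin n) ℤ_[ℓ]), (c • X).map φ = φ c • X.map φ := by
        intro c X
        ext i j
        simp
      show _ = ((chi ℓ g : ℤ_[ℓ]) ^ w •
        ((T.rho ℓ g : Matrix (Fin n) (Fin n) ℤ_[ℓ]).transpose * J * (T.rho ℓ g))).map φ
      rw [h3, map_pow, Matrix.map_mul, Matrix.map_mul, rep_val, Matrix.transpose_map]
    have h4 : B (lin (rep φ T) g x) (lin (rep φ T) g y) = Matrix.toBilin'
        ((rep φ T g : Matrix (Fin n) (Fin n) k).transpose * J.map φ *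
          (rep φ T g : Matrix (Fin n) (Fin n) k)) x y := by
      rw [← Matrix.toBilin'_comp]
      rfl
    rw [h4, eq_inv_mul_iff_mul_eq₀ (pow_ne_zero _ (hchi g))]
    conv_rhs => rw [show B = Matrix.toBilin' (J.map φ) from rfl, ← h2, map_smul]
    rfl
  refine irreducible_of (rep φ T) (fun g => ((φ (chi ℓ g : ℤ_[ℓ])) ^ w)⁻¹) (J := J.map φ) ?_ hB
    ?_ hsum U hU
  · rcases hsym with h | h
    · left; rw [← Matrix.transpose_map, h]
    · right
      rw [← Matrix.transpose_map, h]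
      ext i j
      simp
  intro U hU hiso
  by_contra hU0
  obtain ⟨a, hac, ha⟩ := weights_sub hw U hU
  have hdet := hmink U hU a (by
    intro P hP τ hτ
    obtain ⟨q, hq, hqP⟩ := exists_prime_mem hP
    by_cases hqℓ : ℓ = q
    · subst hqℓ
      exact ha P hP hqP τ hτ
    · rw [det_inertia φ hT hU hq hqℓ hP hqP hτ, chi_inertia hq hqℓ hP hqP hτ, Units.val_one,
        map_one, one_pow, mul_one])
  obtain ⟨P, σ, hP, hpP, hσ⟩ := exists_geom hp
  have hchip : φ (chi ℓ σ : ℤ_[ℓ]) * (p : k) = 1 := by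
    have h1 := congrArg φ (chi_frob hp hpℓ hP hpP hσ)
    rwa [map_mul, map_natCast, map_one] at h1
  have hpk : (p : k) ≠ 0 := right_ne_zero_of_mul_eq_one hchip
  have hs : ((φ (chi ℓ σ : ℤ_[ℓ])) ^ w)⁻¹ = ((p ^ w : ℕ) : k) := by
    rw [inv_eq_iff_eq_inv, Nat.cast_pow, ← inv_pow]
    congr 1
    exact eq_inv_of_mul_eq_one_left hchip
  have hs0 : ((p ^ w : ℕ) : k) ≠ 0 := by
    rw [Nat.cast_pow]; exact pow_ne_zero _ hpk
  have hBσ : ∀ x y, B (lin (rep φ T) σ x) (lin (rep φ T) σ y) = ((p ^ w : ℕ) : k) * B x y := by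
    intro x y
    rw [hB, hs]
  have hnd : B.Nondegenerate := by
    apply LinearMap.BilinForm.nondegenerate_toBilin'_of_det_ne_zero'
    have : (J.map φ).det = φ J.det := (RingHom.map_det φ J).symm
    rwa [this]
  have hUσ : U ≤ U.comap (lin (rep φ T) σ) := fun u hu => hU σ u hu
  obtain ⟨h1, h2, h3⟩ := roots_isotropic (Ω := AlgebraicClosure k) hnd hs0 hBσ hUσ (by
    intro y hy x hx
    exact hiso x hx y hy)
  have hdσ : LinearMap.det ((lin (rep φ T) σ).restrict hUσ) = (p : k) ^ a := by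
    have h4 := hdet σ
    have h5 : detOn (rep φ T) U hU σ = LinearMap.det ((lin (rep φ T) σ).restrict hUσ) := rfl
    rw [h5] at h4
    calc LinearMap.det ((lin (rep φ T) σ).restrict hUσ)
        = LinearMap.det ((lin (rep φ T) σ).restrict hUσ) *
          (φ (chi ℓ σ : ℤ_[ℓ]) * (p : k)) ^ a := by rw [hchip, one_pow, mul_one]
      _ = (LinearMap.det ((lin (rep φ T) σ).restrict hUσ) * φ (chi ℓ σ : ℤ_[ℓ]) ^ a) *
          (p : k) ^ a := by rw [mul_pow]; ring
      _ = (p : k) ^ a := by rw [h4, one_mul]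
  have hchar : (lin (rep φ T) σ).charpoly = (T.poly p).map (Int.castRingHom k) := by
    have h4 := hT.frobenius p hp hpS ℓ hpℓ P hP hpP σ hσ
    have h5 : (lin (rep φ T) σ).charpoly = (rep φ T σ : Matrix (Fin n) (Fin n) k).charpoly := by
      rw [← LinearMap.charpoly_toMatrix _ (Pi.basisFun k (Fin n))]
      congr 1
      exact LinearMap.toMatrix'_toLin' _
    rw [h5, rep_val, Matrix.charpoly_map, h4, Polynomial.map_map]
    congr 1
    exact RingHom.ext_int _ _
  have hroots : (lin (rep φ T) σ).charpoly.aroots (AlgebraicClosure k) =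
      ((T.poly p).map (Int.castRingHom (AlgebraicClosure k))).roots := by
    rw [hchar, aroots_def, Polynomial.map_map]
    congr 2
  rw [hroots, map_natCast] at h1
  rw [hdσ, map_pow, map_natCast] at h2
  have hMΩ : (M : AlgebraicClosure k) ≠ 0 := by
    rw [← map_intCast (algebraMap k (AlgebraicClosure k))]
    exact (_root_.map_ne_zero _).2 hMk
  obtain ⟨A', hA0, hA1, hA2⟩ := hM (AlgebraicClosure k) hMΩ _ a hac h1 h2 (by
    intro h0
    rw [h0, Multiset.card_zero] at h3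
    exact hU0 (Submodule.finrank_eq_zero.1 h3.symm))
  exact hrel A' hA0 hA1 hA2

end core

end Pool.Agent.Y126.SH
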