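import Pool.Agent.Y126.SH.Main

/-!
# Stable adelic lattices
-/

set_option autoImplicit false

namespace Pool.Agent.Y126.SH

open Module Matrix Pool.Agent.Y800

section loc

variable {n : ℕ} {ℓ : ℕ} [hℓ : Fact ℓ.Prime]

/-- normalised lattices: `ℓ ^ a L` is integral and contains a primitive vector -/
def NormAt (a : ℤ) (L : Submodule ℤ_[ℓ] (Fin n → ℚ_[ℓ])) : Prop :=
  (∀ v ∈ L, ∀ i, ‖(ℓ : ℚ_[ℓ]) ^ a * v i‖ ≤ 1) ∧ ∃ v ∈ L, ∃ i, ‖(ℓ : ℚ_[ℓ]) ^ a * v i‖ = 1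

theorem exists_normAt {L : Submodule ℤ_[ℓ] (Fin n → ℚ_[ℓ])} (hfg : L.FG)
    (hne : ∃ v ∈ L, v ≠ 0) : ∃ a : ℤ, NormAt a L := by
  classical
  obtain ⟨s, hs⟩ := hfg
  obtain ⟨u, hu, hu0⟩ := hne
  obtain ⟨iu, hiu⟩ := Function.ne_iff.1 hu0
  have hsne : (s ×ˢ (Finset.univ : Finset (Fin n))).Nonempty := by
    by_contra h
    rw [Finset.not_nonempty_iff_eq_empty, Finset.product_eq_empty] at h
    rcases h with h | h
    · rw [h, Finset.coe_empty, Submodule.span_empty] at hs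
      rw [← hs] at hu
      exact hu0 ((Submodule.mem_bot _).1 hu)
    · exact absurd (Finset.mem_univ iu) (by rw [h]; exact Finset.notMem_empty _)
  obtain ⟨⟨v0, i0⟩, hmem, hmax⟩ := Finset.exists_max_image _
    (fun x : (Fin n → ℚ_[ℓ]) × Fin n => ‖x.1 x.2‖) hsne
  have hall : ∀ v ∈ L, ∀ i, ‖v i‖ ≤ ‖v0 i0‖ := by
    intro v hv
    rw [← hs] at hv
    induction hv using Submodule.span_induction with
    | mem x hx => exact fun i => hmax (x, i) (Finset.mem_product.2 ⟨hx, Finset.mem_univ _⟩)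
    | zero => intro i; rw [Pi.zero_apply, norm_zero]; exact norm_nonneg _
    | add x y _ _ hx hy => intro i; exact (Padic.nonarchimedean _ _).trans (max_le (hx i) (hy i))
    | smul c x _ hx =>
      intro i
      have h1 : (c • x) i = (c : ℚ_[ℓ]) * x i := rfl
      rw [h1, norm_mul]
      exact (mul_le_of_le_one_left (norm_nonneg _) (PadicInt.norm_le_one c)).trans (hx i)
  have h0 : v0 i0 ≠ 0 := by
    intro h0
    have h1 := hall u hu iu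
    rw [h0, norm_zero] at h1
    exact hiu (norm_le_zero_iff.1 h1)
  obtain ⟨z, hz⟩ : ∃ z : ℤ, ‖v0 i0‖ = (ℓ : ℝ) ^ z := ⟨_, Padic.norm_eq_zpow_neg_valuation h0⟩
  have hℓ0 : (0 : ℝ) < ℓ := by exact_mod_cast hℓ.out.pos
  have hz' : ‖(ℓ : ℚ_[ℓ]) ^ z‖ * ‖v0 i0‖ = 1 := by
    rw [Padic.norm_p_zpow, hz, ← zpow_add₀ hℓ0.ne', neg_add_cancel, zpow_zero]
  refine ⟨z, fun v hv i => ?_, v0, ?_, i0, ?_⟩
  · rw [norm_mul, ← hz']
    exact mul_le_mul_of_nonneg_left (hall v hv i) (norm_nonneg _)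
  · rw [← hs]
    exact Submodule.subset_span (Finset.mem_product.1 hmem).1
  · rw [norm_mul, hz']

theorem normAt_le {a b : ℤ} {L : Submodule ℤ_[ℓ] (Fin n → ℚ_[ℓ])} (ha : NormAt a L)
    (hb : NormAt b L) : a ≤ b := by
  obtain ⟨v, hv, i, hi⟩ := ha.2
  have h1 := hb.1 v hv i
  have hℓ1 : (1 : ℝ) < ℓ := by exact_mod_cast hℓ.out.one_lt
  have hℓ0 : (0 : ℝ) < ℓ := lt_trans one_pos hℓ1
  rw [norm_mul, Padic.norm_p_zpow] at hi h1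
  have h2 : ‖v i‖ = (ℓ : ℝ) ^ a := by
    have h3 : (ℓ : ℝ) ^ a * ((ℓ : ℝ) ^ (-a) * ‖v i‖) = (ℓ : ℝ) ^ a * 1 := by rw [hi]
    rw [← mul_assoc, ← zpow_add₀ hℓ0.ne', add_neg_cancel, zpow_zero, one_mul, mul_one] at h3
    exact h3
  rw [h2, ← zpow_add₀ hℓ0.ne'] at h1
  have h3 := (zpow_le_one_iff_right₀ hℓ1).1 h1
  omega

theorem normAt_unique {a b : ℤ} {L : Submodule ℤ_[ℓ] (Fin n → ℚ_[ℓ])} (ha : NormAt a L)
    (hb : NormAt b L) : a = b :=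
  le_antisymm (normAt_le ha hb) (normAt_le hb ha)

theorem normAt_std (hn : 0 < n) {L : Submodule ℤ_[ℓ] (Fin n → ℚ_[ℓ])}
    (hL : ∀ v, v ∈ L ↔ ∀ i, ‖v i‖ ≤ 1) : NormAt 0 L := by
  refine ⟨fun v hv i => ?_, fun _ => 1, (hL _).2 fun i => ?_, ⟨0, hn⟩, ?_⟩
  · rw [zpow_zero, one_mul]
    exact (hL v).1 hv i
  · rw [norm_one]
  · rw [zpow_zero, one_mul, norm_one]

theorem smul_iff (L : Submodule ℤ_[ℓ] (Fin n → ℚ_[ℓ])) {x y : ℚ_[ℓ]} (hy : y ≠ 0)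
    (h : ‖x‖ = ‖y‖) (v : Fin n → ℚ_[ℓ]) : x • v ∈ L ↔ y • v ∈ L := by
  have key : ∀ x y : ℚ_[ℓ], y ≠ 0 → ‖x‖ = ‖y‖ → y • v ∈ L → x • v ∈ L := by
    intro x y hy h hm
    have h1 : ‖x / y‖ ≤ 1 := by rw [norm_div, h, div_self (norm_ne_zero_iff.2 hy)]
    let t : ℤ_[ℓ] := ⟨x / y, h1⟩
    have h2 := L.smul_mem t hm
    have h3 : t • (y • v) = x • v := by
      show (x / y) • (y • v) = x • v
      rw [smul_smul, div_mul_cancel₀ _ hy]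
    rwa [h3] at h2
  have hx : x ≠ 0 := by
    intro h0
    rw [h0, norm_zero] at h
    exact hy (norm_eq_zero.1 h.symm)
  exact ⟨key y x hx h.symm, key x y hy h⟩

/-- stable normalised lattices contain `ℓ ^ m` times the standard lattice -/
theorem lat_contains {ρ : GQ →* GL (Fin n) ℤ_[ℓ]} {m : ℕ}
    (hm : ∀ v : Fin n → ℤ_[ℓ], (∃ i, IsUnit (v i)) →
      ∃ g : Fin n → GQ, (rowsOf ρ g v).det ∣ (ℓ : ℤ_[ℓ]) ^ m)
    {L : Submodule ℤ_[ℓ] (Fin n → ℚ_[ℓ])}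
    (hst : ∀ g, ∀ v ∈ L, (toQ ρ g : Matrix (Fin n) (Fin n) ℚ_[ℓ]).mulVec v ∈ L)
    {a : ℤ} (ha : NormAt a L) (x : Fin n → ℚ_[ℓ])
    (hx : ∀ i, ‖(ℓ : ℚ_[ℓ]) ^ a * x i‖ ≤ ‖(ℓ : ℤ_[ℓ]) ^ m‖) : x ∈ L := by
  classical
  obtain ⟨v, hv, i0, hi0⟩ := ha.2
  let w : Fin n → ℤ_[ℓ] := fun i => ⟨(ℓ : ℚ_[ℓ]) ^ a * v i, ha.1 v hv i⟩
  obtain ⟨g, c, hc⟩ := hm w ⟨i0, PadicInt.isUnit_iff.2 hi0⟩
  let y : Fin n → ℤ_[ℓ] := fun i => ⟨(ℓ : ℚ_[ℓ]) ^ a * x i, (hx i).trans (PadicInt.norm_le_one _)⟩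
  have hℓ0 : (ℓ : ℤ_[ℓ]) ^ m ≠ 0 := pow_ne_zero _ (by exact_mod_cast hℓ.out.ne_zero)
  have ht : ∀ i, ∃ t : ℤ_[ℓ], y i = (ℓ : ℤ_[ℓ]) ^ m * t := fun i => dvd_of_norm_le hℓ0 (hx i)
  choose t ht using ht
  set R := rowsOf ρ g w with hR
  have hy : y = Matrix.vecMul (c • Matrix.vecMul t R.adjugate) R := by
    rw [Matrix.smul_vecMul, Matrix.vecMul_vecMul, Matrix.adjugate_mul, Matrix.vecMul_smul,
      Matrix.vecMul_one, smul_smul]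
    funext i
    rw [ht i, hc, Pi.smul_apply, smul_eq_mul, mul_comm c]
  set z := c • Matrix.vecMul t R.adjugate with hz
  have hℓa : (ℓ : ℚ_[ℓ]) ^ a ≠ 0 := zpow_ne_zero _ (by exact_mod_cast hℓ.out.ne_zero)
  have hxs : x = ∑ i, z i • ((toQ ρ (g i) : Matrix (Fin n) (Fin n) ℚ_[ℓ]).mulVec v) := by
    funext j
    apply mul_left_cancel₀ hℓa
    have h1 : (ℓ : ℚ_[ℓ]) ^ a * x j = ((y j : ℤ_[ℓ]) : ℚ_[ℓ]) := rfl
    rw [h1, hy, Finset.sum_apply, Finset.mul_sum]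
    have h2 : (Matrix.vecMul z R) j = ∑ i, z i * (R i j) := rfl
    rw [h2, PadicInt.coe_sum]
    refine Finset.sum_congr rfl fun i _ => ?_
    rw [PadicInt.coe_mul]
    show (z i : ℚ_[ℓ]) * ((((ρ (g i) : Matrix (Fin n) (Fin n) ℤ_[ℓ]).mulVec w) j : ℤ_[ℓ]) : ℚ_[ℓ]) =
      (ℓ : ℚ_[ℓ]) ^ a * ((z i : ℚ_[ℓ]) * ((toQ ρ (g i) : Matrix (Fin n) (Fin n) ℚ_[ℓ]).mulVec v) j)
    have h3 : ((((ρ (g i) : Matrix (Fin n) (Fin n) ℤ_[ℓ]).mulVec w) j : ℤ_[ℓ]) : ℚ_[ℓ]) =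
        (ℓ : ℚ_[ℓ]) ^ a * ((toQ ρ (g i) : Matrix (Fin n) (Fin n) ℚ_[ℓ]).mulVec v) j := by
      rw [Matrix.mulVec, Matrix.mulVec, dotProduct, dotProduct, PadicInt.coe_sum, Finset.mul_sum]
      refine Finset.sum_congr rfl fun l _ => ?_
      rw [PadicInt.coe_mul]
      show ((ρ (g i) : Matrix (Fin n) (Fin n) ℤ_[ℓ]) j l : ℚ_[ℓ]) * ((ℓ : ℚ_[ℓ]) ^ a * v l) =
        (ℓ : ℚ_[ℓ]) ^ a * (((ρ (g i) : Matrix (Fin n) (Fin n) ℤ_[ℓ]) j l : ℚ_[ℓ]) * v l)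
      ring
    rw [h3]
    ring
  rw [hxs]
  exact Submodule.sum_mem _ fun i _ => L.smul_mem _ (hst _ v hv)

/-- the code of a lattice -/
def codeAt (m : ℕ) (a : ℤ) (L : Submodule ℤ_[ℓ] (Fin n → ℚ_[ℓ])) : Set (Fin n → ZMod (ℓ ^ m)) :=
  {x | ∃ v ∈ L, ∃ w : Fin n → ℤ_[ℓ], (∀ i, (w i : ℚ_[ℓ]) = (ℓ : ℚ_[ℓ]) ^ a * v i) ∧
    ∀ i, PadicInt.toZModPow m (w i) = x i}

theorem code_dir {m : ℕ} {a a' : ℤ} {L L' : Submodule ℤ_[ℓ] (Fin n → ℚ_[ℓ])}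
    (hcont : ∀ x : Fin n → ℚ_[ℓ], (∀ i, ‖(ℓ : ℚ_[ℓ]) ^ a * x i‖ ≤ ‖(ℓ : ℤ_[ℓ]) ^ m‖) → x ∈ L)
    (ha' : NormAt a' L') (hcode : codeAt m a' L' ⊆ codeAt m a L) {v : Fin n → ℚ_[ℓ]} (hv : v ∈ L') :
    ((ℓ : ℚ_[ℓ]) ^ (a' - a)) • v ∈ L := by
  have hℓ0 : (ℓ : ℚ_[ℓ]) ≠ 0 := by exact_mod_cast hℓ.out.ne_zero
  let w' : Fin n → ℤ_[ℓ] := fun i => ⟨(ℓ : ℚ_[ℓ]) ^ a' * v i, ha'.1 v hv i⟩
  obtain ⟨u, hu, w, hw, hw'⟩ := hcode (show (fun i => PadicInt.toZModPow m (w' i)) ∈ codeAt m a' L'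
    from ⟨v, hv, w', fun i => rfl, fun i => rfl⟩)
  have h1 : ((ℓ : ℚ_[ℓ]) ^ (a' - a)) • v - u ∈ L := by
    apply hcont
    intro i
    have h2 : w' i - w i ∈ RingHom.ker (PadicInt.toZModPow (p := ℓ) m) := by
      rw [RingHom.mem_ker, map_sub, hw', sub_self]
    rw [PadicInt.ker_toZModPow, Ideal.mem_span_singleton] at h2
    obtain ⟨e, he⟩ := h2
    have h3 : (ℓ : ℚ_[ℓ]) ^ a * (((ℓ : ℚ_[ℓ]) ^ (a' - a)) • v - u) i =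
        ((w' i - w i : ℤ_[ℓ]) : ℚ_[ℓ]) := by
      rw [Pi.sub_apply, Pi.smul_apply, smul_eq_mul, mul_sub, ← mul_assoc, ← zpow_add₀ hℓ0,
        PadicInt.coe_sub, hw, add_sub_cancel]
    rw [h3]
    show ‖w' i - w i‖ ≤ _
    rw [he, norm_mul]
    exact mul_le_of_le_one_right (norm_nonneg _) (PadicInt.norm_le_one _)
  have h4 := L.add_mem h1 hu
  rwa [sub_add_cancel] at h4

theorem code_iff {m : ℕ} {a a' : ℤ} {L L' : Submodule ℤ_[ℓ] (Fin n → ℚ_[ℓ])}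
    (hcont : ∀ x : Fin n → ℚ_[ℓ], (∀ i, ‖(ℓ : ℚ_[ℓ]) ^ a * x i‖ ≤ ‖(ℓ : ℤ_[ℓ]) ^ m‖) → x ∈ L)
    (hcont' : ∀ x : Fin n → ℚ_[ℓ], (∀ i, ‖(ℓ : ℚ_[ℓ]) ^ a' * x i‖ ≤ ‖(ℓ : ℤ_[ℓ]) ^ m‖) → x ∈ L')
    (ha : NormAt a L) (ha' : NormAt a' L') (hcode : codeAt m a L = codeAt m a' L')
    (v : Fin n → ℚ_[ℓ]) : v ∈ L' ↔ ((ℓ : ℚ_[ℓ]) ^ (a' - a)) • v ∈ L := by
  have hℓ0 : (ℓ : ℚ_[ℓ]) ≠ 0 := by exact_mod_cast hℓ.out.ne_zero
  refine ⟨fun hv => code_dir hcont ha' hcode.ge hv, fun hv => ?_⟩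
  have h1 := code_dir hcont' ha hcode.le hv
  rwa [smul_smul, ← zpow_add₀ hℓ0, sub_add_sub_cancel, sub_self, zpow_zero, one_smul] at h1

theorem std_iff {a a' : ℤ} {L L' : Submodule ℤ_[ℓ] (Fin n → ℚ_[ℓ])}
    (hcont : ∀ x : Fin n → ℚ_[ℓ], (∀ i, ‖(ℓ : ℚ_[ℓ]) ^ a * x i‖ ≤ ‖(ℓ : ℤ_[ℓ]) ^ 0‖) → x ∈ L)
    (hcont' : ∀ x : Fin n → ℚ_[ℓ], (∀ i, ‖(ℓ : ℚ_[ℓ]) ^ a' * x i‖ ≤ ‖(ℓ : ℤ_[ℓ]) ^ 0‖) → x ∈ L')
    (ha : NormAt a L) (ha' : NormAt a' L')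
    (v : Fin n → ℚ_[ℓ]) : v ∈ L' ↔ ((ℓ : ℚ_[ℓ]) ^ (a' - a)) • v ∈ L := by
  have hℓ0 : (ℓ : ℚ_[ℓ]) ≠ 0 := by exact_mod_cast hℓ.out.ne_zero
  rw [pow_zero, norm_one] at hcont hcont'
  have h1 : ∀ i, (ℓ : ℚ_[ℓ]) ^ a * (((ℓ : ℚ_[ℓ]) ^ (a' - a)) • v) i = (ℓ : ℚ_[ℓ]) ^ a' * v i := by
    intro i
    rw [Pi.smul_apply, smul_eq_mul, ← mul_assoc, ← zpow_add₀ hℓ0, add_sub_cancel]
  constructor
  · intro hv
    apply hcont
    intro i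
    rw [h1]
    exact ha'.1 v hv i
  · intro hv
    apply hcont'
    intro i
    rw [← h1]
    exact ha.1 _ hv i

/-- residual irreducibility gives the bound `m = 0` -/
theorem lat_bound_res (ρ : GQ →* GL (Fin n) ℤ_[ℓ])
    (hirr : ∀ U : Submodule (ZMod ℓ) (Fin n → ZMod ℓ), IsStable (toF ρ) U → U = ⊥ ∨ U = ⊤)
    (v : Fin n → ℤ_[ℓ]) (hv : ∃ i, IsUnit (v i)) :
    ∃ g : Fin n → GQ, (rowsOf ρ g v).det ∣ (ℓ : ℤ_[ℓ]) ^ 0 := by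
  classical
  let φ : ℤ_[ℓ] →+* ZMod ℓ := PadicInt.toZMod
  let vq : Fin n → ZMod ℓ := fun i => φ (v i)
  let s : Set (Fin n → ZMod ℓ) :=
    Set.range fun g : GQ => (toF ρ g : Matrix (Fin n) (Fin n) (ZMod ℓ)).mulVec vq
  have hst : IsStable (toF ρ) (Submodule.span (ZMod ℓ) s) := by
    intro g u hu
    induction hu using Submodule.span_induction with
    | mem x hx =>
      obtain ⟨h, rfl⟩ := hx
      refine Submodule.subset_span ⟨g * h, ?_⟩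
      show (toF ρ (g * h) : Matrix (Fin n) (Fin n) (ZMod ℓ)).mulVec vq = _
      rw [map_mul, Units.val_mul, Matrix.mulVec_mulVec]
    | zero => rw [Matrix.mulVec_zero]; exact zero_mem _
    | add y z _ _ hy hz => rw [Matrix.mulVec_add]; exact add_mem hy hz
    | smul c y _ hy => rw [Matrix.mulVec_smul]; exact Submodule.smul_mem _ _ hy
  have htop : Submodule.span (ZMod ℓ) s = ⊤ := by
    refine (hirr _ hst).resolve_left fun h0 => ?_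
    have h1 : vq ∈ Submodule.span (ZMod ℓ) s := by
      refine Submodule.subset_span ⟨1, ?_⟩
      show (toF ρ 1 : Matrix (Fin n) (Fin n) (ZMod ℓ)).mulVec vq = vq
      rw [map_one, Units.val_one, Matrix.one_mulVec]
    rw [h0, Submodule.mem_bot] at h1
    obtain ⟨i, hi⟩ := hv
    have h2 : φ (v i) = 0 := congrFun h1 i
    exact (hi.map φ).ne_zero h2
  obtain ⟨f, hf1, hf2, hf3⟩ := Submodule.exists_fun_fin_finrank_span_eq (ZMod ℓ) s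
  have hfr : finrank (ZMod ℓ) (Submodule.span (ZMod ℓ) s) = n := by
    rw [htop, finrank_top, finrank_fin_fun]
  choose g hg using hf1
  let e := finCongr hfr
  refine ⟨fun i => g (e.symm i), ?_⟩
  have h1 : LinearIndependent (ZMod ℓ) (fun i => f (e.symm i)) := hf3.comp _ e.symm.injective
  have h2 : ((rowsOf ρ (fun i => g (e.symm i)) v).map φ).row = fun i => f (e.symm i) := by
    funext i
    rw [← hg (e.symm i)]
    funext j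
    show φ (((ρ (g (e.symm i)) : Matrix (Fin n) (Fin n) ℤ_[ℓ]).mulVec v) j) =
      ((toF ρ (g (e.symm i)) : Matrix (Fin n) (Fin n) (ZMod ℓ)).mulVec vq) j
    rw [Matrix.mulVec, dotProduct, map_sum]
    refine Finset.sum_congr rfl fun m _ => ?_
    rw [map_mul]
    rfl
  rw [← h2, Matrix.linearIndependent_rows_iff_isUnit, Matrix.isUnit_iff_isUnit_det] at h1
  rw [pow_zero]
  refine (isUnit_iff_dvd_one.1 ?_)
  by_contra hnu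
  have h3 : (rowsOf ρ (fun i => g (e.symm i)) v).det ∈ IsLocalRing.maximalIdeal ℤ_[ℓ] :=
    (IsLocalRing.mem_maximalIdeal _).2 hnu
  rw [← PadicInt.ker_toZMod, RingHom.mem_ker] at h3
  have h4 : ((rowsOf ρ (fun i => g (e.symm i)) v).map φ).det = 0 := by
    rw [← RingHom.mapMatrix_apply, ← RingHom.map_det]
    exact h3
  rw [h4] at h1
  exact not_isUnit_zero h1

end loc

section glob

variable {n : ℕ}

theorem local_lat {S : Finset ℕ} {w : ℕ} {T : IntegralSystem n} (hT : T.IsPure S w)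
    (hR : IsRigid S w T) (ℓ : ℕ) :
    ∃ (k : ℕ) (c : (∀ (ℓ : ℕ) [Fact ℓ.Prime], Submodule ℤ_[ℓ] (Fin n → ℚ_[ℓ])) → ℕ),
      (∀ L, c L < k) ∧ ∀ [Fact ℓ.Prime] L L', T.IsLattice L → T.IsLattice L' → c L = c L' →
        ∀ a a' : ℤ, NormAt a (L ℓ) → NormAt a' (L' ℓ) →
          ∀ v, v ∈ L' ℓ ↔ ((ℓ : ℚ_[ℓ]) ^ (a' - a)) • v ∈ L ℓ := by
  classical
  by_cases hℓ : ℓ.Prime
  · have hF : Fact ℓ.Prime := ⟨hℓ⟩
    obtain ⟨m, hm⟩ := lat_bound (T.rho ℓ) (fun U hU => rat_irr hT hR U hU)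
    have hne : NeZero (ℓ ^ m) := ⟨pow_ne_zero _ hℓ.ne_zero⟩
    obtain ⟨k, ⟨e⟩⟩ := Finite.exists_equiv_fin (Set (Fin n → ZMod (ℓ ^ m)))
    refine ⟨k, fun L => if h : ∃ a : ℤ, NormAt a (L ℓ) then (e (codeAt m h.choose (L ℓ)) : ℕ) else 0,
      ?_, ?_⟩
    · intro L
      dsimp only
      split_ifs with h
      · exact Fin.is_lt _
      · exact lt_of_le_of_lt (Nat.zero_le _) (e ∅).is_lt
    · intro _ L L' hL hL' hc a a' ha ha' v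
      dsimp only at hc
      have h : ∃ a : ℤ, NormAt a (L ℓ) := ⟨a, ha⟩
      have h' : ∃ a : ℤ, NormAt a (L' ℓ) := ⟨a', ha'⟩
      rw [dif_pos h, dif_pos h', normAt_unique h.choose_spec ha,
        normAt_unique h'.choose_spec ha'] at hc
      have h1 := e.injective (Fin.ext hc)
      exact code_iff (fun x hx => lat_contains hm (hL.stable ℓ) ha x hx)
        (fun x hx => lat_contains hm (hL'.stable ℓ) ha' x hx) ha ha' h1 v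
  · exact ⟨1, fun _ => 0, fun _ => Nat.one_pos, fun {hF} => (hℓ hF.out).elim⟩

/-- **Finiteness of the stable lattices up to rational factors.** -/
theorem lattices (hn : 0 < n) {S : Finset ℕ} {w : ℕ} {T : IntegralSystem n} (hT : T.IsPure S w)
    (hR : IsRigid S w T) :
    ∃ (m : ℕ) (L : Fin m → ∀ (ℓ : ℕ) [Fact ℓ.Prime], Submodule ℤ_[ℓ] (Fin n → ℚ_[ℓ])),
      (∀ i, T.IsLattice (L i)) ∧
        ∀ L' : (∀ (ℓ : ℕ) [Fact ℓ.Prime], Submodule ℤ_[ℓ] (Fin n → ℚ_[ℓ])), T.IsLattice L' →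
          ∃ i, IntegralSystem.Proportional (L i) L' := by
  classical
  refine exists_reps
    (fun L : (∀ (ℓ : ℕ) [Fact ℓ.Prime], Submodule ℤ_[ℓ] (Fin n → ℚ_[ℓ])) => T.IsLattice L)
    (fun L L' => IntegralSystem.Proportional L L') (fun _ => ()) (Set.toFinite _) ?_
  intro _ _
  obtain ⟨N, hN⟩ := res_irr hT hR
  choose k c hk hc using local_lat hT hR
  obtain ⟨K, ⟨e⟩⟩ := Finite.exists_equiv_fin (∀ ℓ : Fin (N + 1), Fin (k ℓ))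
  refine ⟨K, fun L => (e fun ℓ => ⟨c ℓ L, hk ℓ L⟩ : ℕ), fun L => Fin.is_lt _, ?_⟩
  intro L L' hL hL' _ _ hcode
  -- the exponents
  have hex : ∀ (R : ∀ (ℓ : ℕ) [Fact ℓ.Prime], Submodule ℤ_[ℓ] (Fin n → ℚ_[ℓ])), T.IsLattice R →
      ∀ ℓ : ℕ, ∃ a : ℤ, ∀ [Fact ℓ.Prime], NormAt a (R ℓ) := by
    intro R hR ℓ
    by_cases hℓ : ℓ.Prime
    · have hF : Fact ℓ.Prime := ⟨hℓ⟩
      obtain ⟨m, hm⟩ := hR.span ℓ (fun _ => 1)
      obtain ⟨a, ha⟩ := exists_normAt (hR.fg ℓ) ⟨_, hm, fun h0 => by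
        have h1 := congrFun h0 ⟨0, hn⟩
        rw [Pi.smul_apply, Pi.zero_apply, smul_eq_mul, mul_one] at h1
        exact pow_ne_zero m (by exact_mod_cast hℓ.ne_zero : (ℓ : ℚ_[ℓ]) ≠ 0) h1⟩
      exact ⟨a, ha⟩
    · exact ⟨0, fun {hF} => (hℓ hF.out).elim⟩
  choose a ha using hex L hL
  choose a' ha' using hex L' hL'
  obtain ⟨M, hM⟩ := hL.standard
  obtain ⟨M', hM'⟩ := hL'.standard
  have hz : ∀ (ℓ : ℕ) [Fact ℓ.Prime], max M M' < ℓ → a' ℓ - a ℓ = 0 := by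
    intro ℓ _ hlt
    rw [max_lt_iff] at hlt
    rw [normAt_unique (ha ℓ) (normAt_std hn (hM ℓ hlt.1)),
      normAt_unique (ha' ℓ) (normAt_std hn (hM' ℓ hlt.2)), sub_self]
  -- the local statement
  have hloc : ∀ (ℓ : ℕ) [Fact ℓ.Prime] (v : Fin n → ℚ_[ℓ]),
      v ∈ L' ℓ ↔ ((ℓ : ℚ_[ℓ]) ^ (a' ℓ - a ℓ)) • v ∈ L ℓ := by
    intro ℓ hℓ v
    by_cases hℓN : ℓ ≤ N
    · have h3 := e.injective (Fin.ext hcode)
      have h4 := congrFun h3 ⟨ℓ, Nat.lt_succ_of_le hℓN⟩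
      exact hc ℓ L L' hL hL' (congrArg Fin.val h4) _ _ (ha ℓ) (ha' ℓ) v
    · have hm := lat_bound_res (T.rho ℓ) (fun U hU => hN ℓ (by omega) U hU)
      exact std_iff (fun x hx => lat_contains hm (hL.stable ℓ) (ha ℓ) x hx)
        (fun x hx => lat_contains hm (hL'.stable ℓ) (ha' ℓ) x hx) (ha ℓ) (ha' ℓ) v
  -- the rational number
  let P := (Finset.range (max M M' + 1)).filter Nat.Prime
  refine ⟨∏ q ∈ P, (q : ℚ) ^ (a' q - a q), ?_, ?_⟩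
  · refine Finset.prod_pos fun q hq => zpow_pos ?_ _
    exact_mod_cast (Finset.mem_filter.1 hq).2.pos
  · intro ℓ hℓ v
    rw [hloc ℓ v]
    refine (smul_iff (L ℓ) (zpow_ne_zero _ (by exact_mod_cast hℓ.out.ne_zero)) ?_ v).symm
    have h1 : ((∏ q ∈ P, (q : ℚ) ^ (a' q - a q) : ℚ) : ℚ_[ℓ]) =
        ∏ q ∈ P, (q : ℚ_[ℓ]) ^ (a' q - a q) := by
      push_cast
      rfl
    have h2 : ∀ q ∈ P, q ≠ ℓ → ‖(q : ℚ_[ℓ]) ^ (a' q - a q)‖ = 1 := by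
      intro q hq hne
      rw [norm_zpow, Padic.norm_natCast_eq_one_iff.2, _root_.one_zpow]
      exact (Nat.coprime_primes hℓ.out (Finset.mem_filter.1 hq).2).2 hne.symm
    rw [h1, norm_prod]
    by_cases hℓP : ℓ ∈ P
    · exact Finset.prod_eq_single_of_mem ℓ hℓP h2
    · have h3 : max M M' < ℓ := by
        by_contra hle
        exact hℓP (Finset.mem_filter.2 ⟨Finset.mem_range.2 (by omega), hℓ.out⟩)
      rw [hz ℓ h3, zpow_zero, norm_one]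
      exact Finset.prod_eq_one fun q hq => h2 q hq fun h => hℓP (h ▸ hq)

end glob

end Pool.Agent.Y126.SH
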