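import Pool.Agent.Y800.Lin

/-!
# Irreducible representations with the same traces are isomorphic
-/

set_option autoImplicit false

namespace Pool.Agent.Y126.SH

open Module Matrix Pool.Agent.Y800

section bn

variable {G : Type*} [Group G] {k : Type*} [Field k] {n : ℕ}

/-- irreducible representations are semisimple -/
theorem semisimple_of_irr (ρ : G →* GL (Fin n) k)
    (h : ∀ W : Submodule k (Fin n → k), Stable ρ W → W = ⊥ ∨ W = ⊤) : IsSemisimpleRep ρ := by
  intro W hW
  rcases h W hW with rfl | rfl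
  · exact ⟨⊤, fun g w _ => trivial, isCompl_bot_top⟩
  · refine ⟨⊥, fun g w hw => ?_, isCompl_top_bot⟩
    rw [Submodule.mem_bot] at hw ⊢
    rw [hw, Matrix.mulVec_zero]

variable (ρ ρ' : G →* GL (Fin n) k)

/-- the pair of matrices -/
def pr (g : G) : Matrix (Fin n) (Fin n) k × Matrix (Fin n) (Fin n) k :=
  ((ρ g : Matrix (Fin n) (Fin n) k), (ρ' g : Matrix (Fin n) (Fin n) k))

theorem pr_mul (g h : G) : pr ρ ρ' (g * h) = pr ρ ρ' g * pr ρ ρ' h := by
  unfold pr
  rw [map_mul, map_mul, Units.val_mul, Units.val_mul]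
  rfl

theorem pr_mem {z : Matrix (Fin n) (Fin n) k × Matrix (Fin n) (Fin n) k}
    (hz : z ∈ Submodule.span k (Set.range (pr ρ ρ'))) : z.1 ∈ Sp ρ ∧ z.2 ∈ Sp ρ' := by
  induction hz using Submodule.span_induction with
  | mem x hx =>
    obtain ⟨g, rfl⟩ := hx
    exact ⟨mem_Sp ρ g, mem_Sp ρ' g⟩
  | zero => exact ⟨zero_mem _, zero_mem _⟩
  | add y z _ _ hy hz => exact ⟨add_mem hy.1 hz.1, add_mem hy.2 hz.2⟩
  | smul c y _ hy => exact ⟨Submodule.smul_mem _ _ hy.1, Submodule.smul_mem _ _ hy.2⟩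

theorem pr_trace (ht : ∀ g, (ρ g : Matrix (Fin n) (Fin n) k).trace =
      (ρ' g : Matrix (Fin n) (Fin n) k).trace)
    {z : Matrix (Fin n) (Fin n) k × Matrix (Fin n) (Fin n) k}
    (hz : z ∈ Submodule.span k (Set.range (pr ρ ρ'))) (g : G) :
    ((ρ g : Matrix (Fin n) (Fin n) k) * z.1).trace =
      ((ρ' g : Matrix (Fin n) (Fin n) k) * z.2).trace := by
  induction hz using Submodule.span_induction with
  | mem x hx =>
    obtain ⟨h, rfl⟩ := hx
    show ((ρ g : Matrix (Fin n) (Fin n) k) * (ρ h : Matrix (Fin n) (Fin n) k)).trace =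
      ((ρ' g : Matrix (Fin n) (Fin n) k) * (ρ' h : Matrix (Fin n) (Fin n) k)).trace
    rw [← Units.val_mul, ← Units.val_mul, ← map_mul, ← map_mul, ht]
  | zero => simp
  | add y z _ _ hy hz =>
    rw [Prod.fst_add, Prod.snd_add, mul_add, mul_add, Matrix.trace_add, Matrix.trace_add, hy, hz]
  | smul c y _ hy =>
    rw [Prod.smul_fst, Prod.smul_snd, mul_smul_comm, mul_smul_comm, Matrix.trace_smul,
      Matrix.trace_smul, hy]

/-- **Irreducible representations with the same traces are isomorphic.** -/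
theorem bn (hn0 : 0 < n) (hn : ∀ m : ℕ, 1 ≤ m → m ≤ n → (m : k) ≠ 0)
    (h : ∀ W : Submodule k (Fin n → k), Stable ρ W → W = ⊥ ∨ W = ⊤)
    (h' : ∀ W : Submodule k (Fin n → k), Stable ρ' W → W = ⊥ ∨ W = ⊤)
    (ht : ∀ g, (ρ g : Matrix (Fin n) (Fin n) k).trace = (ρ' g : Matrix (Fin n) (Fin n) k).trace) :
    ∃ A : GL (Fin n) k, ∀ g, (ρ' g : Matrix (Fin n) (Fin n) k) * A = A * ρ g := by
  classical
  have : Nonempty (Fin n) := ⟨⟨0, hn0⟩⟩
  have key1 : ∀ z ∈ Submodule.span k (Set.range (pr ρ ρ')), z.1 = 0 → z = 0 := by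
    intro z hz h1
    have h2 : z.2 = 0 := by
      refine eq_zero_of_trace ρ' hn (semisimple_of_irr ρ' h') (pr_mem ρ ρ' hz).2 fun g => ?_
      rw [← pr_trace ρ ρ' ht hz g, h1, mul_zero, Matrix.trace_zero]
    exact Prod.ext h1 h2
  have key2 : ∀ z ∈ Submodule.span k (Set.range (pr ρ ρ')), z.2 = 0 → z = 0 := by
    intro z hz h1
    have h2 : z.1 = 0 := by
      refine eq_zero_of_trace ρ hn (semisimple_of_irr ρ h) (pr_mem ρ ρ' hz).1 fun g => ?_
      rw [pr_trace ρ ρ' ht hz g, h1, mul_zero, Matrix.trace_zero]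
    exact Prod.ext h2 h1
  -- a minimal left ideal
  let Good : Submodule k (Matrix (Fin n) (Fin n) k × Matrix (Fin n) (Fin n) k) → Prop := fun L =>
    L ≠ ⊥ ∧ L ≤ Submodule.span k (Set.range (pr ρ ρ')) ∧ ∀ g, ∀ z ∈ L, pr ρ ρ' g * z ∈ L
  have hex : ∃ m : ℕ, ∃ L, Good L ∧ finrank k L = m := by
    refine ⟨_, Submodule.span k (Set.range (pr ρ ρ')), ⟨?_, le_rfl, ?_⟩, rfl⟩
    · intro h0
      have h1 : pr ρ ρ' 1 ∈ Submodule.span k (Set.range (pr ρ ρ')) := Submodule.subset_span ⟨1, rfl⟩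
      rw [h0, Submodule.mem_bot] at h1
      have h2 := congrArg Prod.fst h1
      have h3 : (1 : Matrix (Fin n) (Fin n) k) = 0 := by
        have : (pr ρ ρ' 1).1 = (1 : Matrix (Fin n) (Fin n) k) := by
          show (ρ 1 : Matrix (Fin n) (Fin n) k) = 1
          rw [map_one, Units.val_one]
        rw [← this, h2]
        rfl
      exact one_ne_zero h3
    · intro g z hz
      induction hz using Submodule.span_induction with
      | mem x hx =>
        obtain ⟨h, rfl⟩ := hx
        rw [← pr_mul]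
        exact Submodule.subset_span ⟨_, rfl⟩
      | zero => rw [mul_zero]; exact zero_mem _
      | add y z _ _ hy hz => rw [mul_add]; exact add_mem hy hz
      | smul c y _ hy => rw [mul_smul_comm]; exact Submodule.smul_mem _ _ hy
  obtain ⟨L, ⟨hL0, hLs, hLst⟩, hLm⟩ := Nat.find_spec hex
  have hmin : ∀ L' : Submodule k (Matrix (Fin n) (Fin n) k × Matrix (Fin n) (Fin n) k),
      L' < L → (∀ g, ∀ z ∈ L', pr ρ ρ' g * z ∈ L') → L' = ⊥ := by
    intro L' hlt hst
    by_contra h0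
    have h1 := Submodule.finrank_lt_finrank_of_lt hlt
    exact Nat.find_min hex (hLm ▸ h1) ⟨L', ⟨h0, hlt.le.trans hLs, hst⟩, rfl⟩
  obtain ⟨z₀, hz₀, hz₀'⟩ := Submodule.exists_mem_ne_zero_of_ne_bot hL0
  -- evaluation maps
  obtain ⟨v, hv⟩ : ∃ v, z₀.1.mulVec v ≠ 0 := by
    by_contra hcon
    push Not at hcon
    refine hz₀' (key1 z₀ (hLs hz₀) ?_)
    apply Matrix.toLin'.injective
    refine LinearMap.ext fun x => ?_
    rw [Matrix.toLin'_apply, hcon, map_zero, LinearMap.zero_apply]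
  obtain ⟨v', hv'⟩ : ∃ v, z₀.2.mulVec v ≠ 0 := by
    by_contra hcon
    push Not at hcon
    refine hz₀' (key2 z₀ (hLs hz₀) ?_)
    apply Matrix.toLin'.injective
    refine LinearMap.ext fun x => ?_
    rw [Matrix.toLin'_apply, hcon, map_zero, LinearMap.zero_apply]
  let f : L →ₗ[k] (Fin n → k) :=
    { toFun := fun z => z.1.1.mulVec v
      map_add' := fun x y => Matrix.add_mulVec _ _ _
      map_smul' := fun c x => Matrix.smul_mulVec _ _ _ }
  let f' : L →ₗ[k] (Fin n → k) :=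
    { toFun := fun z => z.1.2.mulVec v'
      map_add' := fun x y => Matrix.add_mulVec _ _ _
      map_smul' := fun c x => Matrix.smul_mulVec _ _ _ }
  have hfg : ∀ g (y : L), f ⟨pr ρ ρ' g * y.1, hLst g _ y.2⟩ =
      (ρ g : Matrix (Fin n) (Fin n) k).mulVec (f y) := by
    intro g y
    show ((ρ g : Matrix (Fin n) (Fin n) k) * y.1.1).mulVec v =
      (ρ g : Matrix (Fin n) (Fin n) k).mulVec (y.1.1.mulVec v)
    rw [Matrix.mulVec_mulVec]
  have hf'g : ∀ g (y : L), f' ⟨pr ρ ρ' g * y.1, hLst g _ y.2⟩ =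
      (ρ' g : Matrix (Fin n) (Fin n) k).mulVec (f' y) := by
    intro g y
    show ((ρ' g : Matrix (Fin n) (Fin n) k) * y.1.2).mulVec v' =
      (ρ' g : Matrix (Fin n) (Fin n) k).mulVec (y.1.2.mulVec v')
    rw [Matrix.mulVec_mulVec]
  have hf : Function.Bijective f := by
    constructor
    · have h00 : (LinearMap.ker f).map L.subtype = ⊥ := ?_
      · rw [← LinearMap.ker_eq_bot, LinearMap.ker_eq_bot']
        intro x hx
        have h01 : x.1 ∈ (LinearMap.ker f).map L.subtype := ⟨x, hx, rfl⟩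
        rw [h00, Submodule.mem_bot] at h01
        exact Subtype.ext h01
      apply hmin
      · refine lt_of_le_of_ne (Submodule.map_subtype_le _ _) fun heq => hv ?_
        have h1 : z₀ ∈ (LinearMap.ker f).map L.subtype := by rw [heq]; exact hz₀
        obtain ⟨y, hy, rfl⟩ := h1
        exact hy
      · rintro g _ ⟨y, hy, rfl⟩
        refine ⟨⟨pr ρ ρ' g * y.1, hLst g _ y.2⟩, ?_, rfl⟩
        show ((ρ g : Matrix (Fin n) (Fin n) k) * y.1.1).mulVec v = 0
        have hy' : y.1.1.mulVec v = 0 := hy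
        rw [← Matrix.mulVec_mulVec, hy', Matrix.mulVec_zero]
    · rw [← LinearMap.range_eq_top]
      refine (h _ ?_).resolve_left ?_
      · rintro g _ ⟨y, rfl⟩
        exact ⟨⟨pr ρ ρ' g * y.1, hLst g _ y.2⟩, hfg g y⟩
      · intro h0
        apply hv
        have : f ⟨z₀, hz₀⟩ ∈ LinearMap.range f := ⟨_, rfl⟩
        rw [h0, Submodule.mem_bot] at this
        exact this
  have hf' : Function.Bijective f' := by
    constructor
    · have h00 : (LinearMap.ker f').map L.subtype = ⊥ := ?_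
      · rw [← LinearMap.ker_eq_bot, LinearMap.ker_eq_bot']
        intro x hx
        have h01 : x.1 ∈ (LinearMap.ker f').map L.subtype := ⟨x, hx, rfl⟩
        rw [h00, Submodule.mem_bot] at h01
        exact Subtype.ext h01
      apply hmin
      · refine lt_of_le_of_ne (Submodule.map_subtype_le _ _) fun heq => hv' ?_
        have h1 : z₀ ∈ (LinearMap.ker f').map L.subtype := by rw [heq]; exact hz₀
        obtain ⟨y, hy, rfl⟩ := h1
        exact hy
      · rintro g _ ⟨y, hy, rfl⟩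
        refine ⟨⟨pr ρ ρ' g * y.1, hLst g _ y.2⟩, ?_, rfl⟩
        show ((ρ' g : Matrix (Fin n) (Fin n) k) * y.1.2).mulVec v' = 0
        have hy' : y.1.2.mulVec v' = 0 := hy
        rw [← Matrix.mulVec_mulVec, hy', Matrix.mulVec_zero]
    · rw [← LinearMap.range_eq_top]
      refine (h' _ ?_).resolve_left ?_
      · rintro g _ ⟨y, rfl⟩
        exact ⟨⟨pr ρ ρ' g * y.1, hLst g _ y.2⟩, hf'g g y⟩
      · intro h0
        apply hv'
        have : f' ⟨z₀, hz₀⟩ ∈ LinearMap.range f' := ⟨_, rfl⟩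
        rw [h0, Submodule.mem_bot] at this
        exact this
  let e : (Fin n → k) ≃ₗ[k] (Fin n → k) :=
    (LinearEquiv.ofBijective f hf).symm.trans (LinearEquiv.ofBijective f' hf')
  have hcomm : ∀ g x, e ((ρ g : Matrix (Fin n) (Fin n) k).mulVec x) =
      (ρ' g : Matrix (Fin n) (Fin n) k).mulVec (e x) := by
    intro g x
    obtain ⟨y, rfl⟩ := (LinearEquiv.ofBijective f hf).surjective x
    have h1 : (ρ g : Matrix (Fin n) (Fin n) k).mulVec (LinearEquiv.ofBijective f hf y) =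
        LinearEquiv.ofBijective f hf ⟨pr ρ ρ' g * y.1, hLst g _ y.2⟩ := (hfg g y).symm
    rw [h1]
    show LinearEquiv.ofBijective f' hf' ((LinearEquiv.ofBijective f hf).symm _) =
      (ρ' g : Matrix (Fin n) (Fin n) k).mulVec
        (LinearEquiv.ofBijective f' hf' ((LinearEquiv.ofBijective f hf).symm _))
    rw [LinearEquiv.symm_apply_apply, LinearEquiv.symm_apply_apply]
    exact hf'g g y
  let A : Matrix (Fin n) (Fin n) k := LinearMap.toMatrix' (e : (Fin n → k) →ₗ[k] (Fin n → k))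
  let A' : Matrix (Fin n) (Fin n) k := LinearMap.toMatrix' (e.symm : (Fin n → k) →ₗ[k] (Fin n → k))
  have hAA : A * A' = 1 := by
    rw [← LinearMap.toMatrix'_comp]
    have : (e : (Fin n → k) →ₗ[k] (Fin n → k)) ∘ₗ (e.symm : (Fin n → k) →ₗ[k] (Fin n → k)) =
        LinearMap.id := by apply LinearMap.ext; intro x; simp
    rw [this, LinearMap.toMatrix'_id]
  have hAA' : A' * A = 1 := by
    rw [← LinearMap.toMatrix'_comp]
    have : (e.symm : (Fin n → k) →ₗ[k] (Fin n → k)) ∘ₗ (e : (Fin n → k) →ₗ[k] (Fin n → k)) =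
        LinearMap.id := by apply LinearMap.ext; intro x; simp
    rw [this, LinearMap.toMatrix'_id]
  refine ⟨⟨A, A', hAA, hAA'⟩, fun g => ?_⟩
  show (ρ' g : Matrix (Fin n) (Fin n) k) * A = A * (ρ g : Matrix (Fin n) (Fin n) k)
  apply Matrix.toLin'.injective
  refine LinearMap.ext fun x => ?_
  rw [Matrix.toLin'_mul, Matrix.toLin'_mul, LinearMap.comp_apply, LinearMap.comp_apply,
    Matrix.toLin'_toMatrix', Matrix.toLin'_apply, Matrix.toLin'_apply]
  exact (hcomm g x).symm

end bn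

end Pool.Agent.Y126.SH
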