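import Pool.Agent.Y800.Defs

/-!
# Integral compatible systems of Galois representations of `ℚ`

The absolute Galois group `GQ` of `ℚ`, the ring `ZBar` of all algebraic integers, inertia groups
(`InInertia`) and geometric Frobenius elements (`IsGeomFrob`) are those of `Pool.Agent.Y800.Defs`.
-/

set_option autoImplicit false

namespace Pool.Agent.Y126.SH

open Polynomial Pool.Agent.Y800

/-- The `ℓ`-adic cyclotomic character of the absolute Galois group of `ℚ`. -/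
noncomputable def chi (ℓ : ℕ) [Fact ℓ.Prime] : GQ →* ℤ_[ℓ]ˣ :=
  (cyclotomicCharacter (AlgebraicClosure ℚ) ℓ).comp
    (MulSemiringAction.toRingAut GQ (AlgebraicClosure ℚ))

section field

variable {k : Type} [Field k] {n : ℕ}

/-- The weights at `ℓ` are natural numbers: for each subrepresentation `σ` of `ρ` (of dimension `d`,
with `C : k ^ d → k ^ n` injective and equivariant) there is `a ≤ c` such that the inertia groups at `ℓ`
act on the determinant of `σ` through `χ ^ (-a)`. -/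
def WeightsAt (ρ : GQ →* GL (Fin n) k) (χ : GQ → k) (ℓ c : ℕ) : Prop :=
  ∀ (d : ℕ) (C : Matrix (Fin n) (Fin d) k) (σ : GQ → Matrix (Fin d) (Fin d) k),
    Function.Injective C.mulVec → (∀ g, (ρ g : Matrix (Fin n) (Fin n) k) * C = C * σ g) →
    ∃ a : ℕ, a ≤ c ∧ ∀ P : Ideal ZBar, P.IsMaximal → (ℓ : ZBar) ∈ P → ∀ τ : GQ, InInertia P τ →
      (σ τ).det * χ τ ^ a = 1

/-- The number of the Jordan blocks of size `j ≥ 1` of the unipotent matrix `u`. -/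
noncomputable def jordanBlocks (u : Matrix (Fin n) (Fin n) k) (j : ℕ) : ℕ :=
  (((u - 1) ^ (j - 1)).rank - ((u - 1) ^ j).rank) - (((u - 1) ^ j).rank - ((u - 1) ^ (j + 1)).rank)

/-- For each `d` with `0 < d < n` some element of the Galois group acts unipotently, with Jordan
blocks such that `d` is not the sum of the sizes of some of them. (This holds if some element acts
with one Jordan block.) -/
def NoPartialSums (ρ : GQ →* GL (Fin n) k) : Prop :=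
  ∀ d : ℕ, 0 < d → d < n → ∃ g : GQ, IsNilpotent ((ρ g : Matrix (Fin n) (Fin n) k) - 1) ∧
    ∀ b : ℕ → ℕ, (∀ j, b j ≤ jordanBlocks (ρ g : Matrix (Fin n) (Fin n) k) j) →
      ∑ j ∈ Finset.range (n + 1), j * b j ≠ d

end field

/-- A family of `ℓ`-adic representations on `T_ℓ = ℤ_ℓ ^ n` of the absolute Galois group of `ℚ`, one
for each prime number `ℓ`, and a family of polynomials (for the Frobenius elements). -/
structure IntegralSystem (n : ℕ) where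
  /-- the representations -/
  rho : ∀ (ℓ : ℕ) [Fact ℓ.Prime], GQ →* GL (Fin n) ℤ_[ℓ]
  /-- the Frobenius polynomials -/
  poly : ℕ → ℤ[X]

namespace IntegralSystem

variable {n : ℕ}

/-- The representation on `V_ℓ = T_ℓ ⊗ ℚ_ℓ`. -/
noncomputable def rat (T : IntegralSystem n) (ℓ : ℕ) [Fact ℓ.Prime] : GQ →* GL (Fin n) ℚ_[ℓ] :=
  (Matrix.GeneralLinearGroup.map (algebraMap ℤ_[ℓ] ℚ_[ℓ])).comp (T.rho ℓ)

/-- The representation on `T_ℓ / ℓ T_ℓ`. -/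
noncomputable def res (T : IntegralSystem n) (ℓ : ℕ) [Fact ℓ.Prime] : GQ →* GL (Fin n) (ZMod ℓ) :=
  (Matrix.GeneralLinearGroup.map (PadicInt.toZMod (p := ℓ))).comp (T.rho ℓ)

/-- `T` and `T'` are isomorphic: `T_ℓ` and `T'_ℓ` are isomorphic for all `ℓ`. -/
def Isomorphic (T T' : IntegralSystem n) : Prop :=
  ∀ (ℓ : ℕ) [Fact ℓ.Prime], ∃ A : GL (Fin n) ℤ_[ℓ], ∀ g : GQ, T'.rho ℓ g = A * T.rho ℓ g * A⁻¹

/-- Good reduction at the prime `p`, pure of weight `w`. -/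
structure GoodAt (T : IntegralSystem n) (w p : ℕ) : Prop where
  /-- the Frobenius polynomial is monic -/
  monic : (T.poly p).Monic
  /-- and pure of weight `w` -/
  pure : ∀ z : ℂ, z ∈ (T.poly p).aroots ℂ → ‖z‖ ^ 2 = (p : ℝ) ^ w
  /-- `T_ℓ` is unramified at `p` for `ℓ ≠ p` -/
  unramified : ∀ (ℓ : ℕ) [Fact ℓ.Prime], ℓ ≠ p →
    ∀ P : Ideal ZBar, P.IsMaximal → (p : ZBar) ∈ P → ∀ τ : GQ, InInertia P τ → T.rho ℓ τ = 1
  /-- with characteristic polynomial of the geometric Frobenius elements independent of `ℓ` -/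
  frobenius : ∀ (ℓ : ℕ) [Fact ℓ.Prime], ℓ ≠ p →
    ∀ P : Ideal ZBar, P.IsMaximal → (p : ZBar) ∈ P → ∀ σ : GQ, IsGeomFrob p P σ →
      (T.rho ℓ σ : Matrix (Fin n) (Fin n) ℤ_[ℓ]).charpoly =
        (T.poly p).map (Int.castRingHom ℤ_[ℓ])

/-- Semistable reduction at the prime `p`: inertia acts unipotently on `T_ℓ` for `ℓ ≠ p`. -/
def SemistableAt (T : IntegralSystem n) (p : ℕ) : Prop :=
  ∀ (ℓ : ℕ) [Fact ℓ.Prime], ℓ ≠ p →
    ∀ P : Ideal ZBar, P.IsMaximal → (p : ZBar) ∈ P → ∀ τ : GQ, InInertia P τ →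
      IsNilpotent ((T.rho ℓ τ : Matrix (Fin n) (Fin n) ℤ_[ℓ]) - 1)

/-- A polarization `T_ℓ × T_ℓ → ℤ_ℓ(-w)`, perfect if `ℓ > N`. -/
def PolarizedAt (T : IntegralSystem n) (w N ℓ : ℕ) [Fact ℓ.Prime] : Prop :=
  ∃ J : Matrix (Fin n) (Fin n) ℤ_[ℓ], J.det ≠ 0 ∧
    (N < ℓ → IsUnit J.det) ∧ (J.transpose = J ∨ J.transpose = -J) ∧
    ∀ g : GQ, (chi ℓ g : ℤ_[ℓ]) ^ w •
      ((T.rho ℓ g : Matrix (Fin n) (Fin n) ℤ_[ℓ]).transpose * J * (T.rho ℓ g)) = J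

/-- The properties of the realisations of a pure motive of weight `w ≥ 0` (with Hodge numbers
`h^{r,w-r} = 0` for `r < 0`) over `ℚ` with a lattice and a polarization, with good reduction outside
the finite set `S` of primes and semistable reduction in `S`. -/
structure IsPure (S : Finset ℕ) (w : ℕ) (T : IntegralSystem n) : Prop where
  /-- the representations are continuous -/
  continuous : ∀ (ℓ : ℕ) [Fact ℓ.Prime],
    Continuous fun g => (T.rho ℓ g : Matrix (Fin n) (Fin n) ℤ_[ℓ])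
  /-- good reduction outside `S` -/
  good : ∀ p : ℕ, p.Prime → p ∉ S → T.GoodAt w p
  /-- semistable reduction in `S` -/
  semistable : ∀ p : ℕ, p.Prime → p ∈ S → T.SemistableAt p
  /-- Hodge-Tate weights of `V_ℓ` at `ℓ` -/
  weights : ∀ (ℓ : ℕ) [Fact ℓ.Prime], ∃ c : ℕ,
    WeightsAt (T.rat ℓ) (fun g => algebraMap ℤ_[ℓ] ℚ_[ℓ] (chi ℓ g : ℤ_[ℓ])) ℓ c
  /-- Fontaine-Laffaille weights of `T_ℓ / ℓ` at `ℓ`, for almost all `ℓ` -/
  residualWeights : ∃ N : ℕ, ∀ (ℓ : ℕ) [Fact ℓ.Prime], N < ℓ →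
    WeightsAt (T.res ℓ) (fun g => PadicInt.toZMod (chi ℓ g : ℤ_[ℓ])) ℓ (w * n)
  /-- a polarization, perfect for almost all `ℓ` -/
  polarized : ∃ N : ℕ, ∀ (ℓ : ℕ) [Fact ℓ.Prime], T.PolarizedAt w N ℓ

section

variable {S : Finset ℕ} {w : ℕ} {T : IntegralSystem n}

theorem IsPure.monic (hT : T.IsPure S w) (p : ℕ) (hp : p.Prime) (hpS : p ∉ S) :
    (T.poly p).Monic := (hT.good p hp hpS).monic

theorem IsPure.pure (hT : T.IsPure S w) (p : ℕ) (hp : p.Prime) (hpS : p ∉ S) :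
    ∀ z : ℂ, z ∈ (T.poly p).aroots ℂ → ‖z‖ ^ 2 = (p : ℝ) ^ w := (hT.good p hp hpS).pure

theorem IsPure.unramified (hT : T.IsPure S w) (p : ℕ) (hp : p.Prime) (hpS : p ∉ S)
    (ℓ : ℕ) [Fact ℓ.Prime] (hℓ : ℓ ≠ p) (P : Ideal ZBar) (hP : P.IsMaximal)
    (hpP : (p : ZBar) ∈ P) (τ : GQ) (hτ : InInertia P τ) : T.rho ℓ τ = 1 :=
  (hT.good p hp hpS).unramified ℓ hℓ P hP hpP τ hτ

theorem IsPure.frobenius (hT : T.IsPure S w) (p : ℕ) (hp : p.Prime) (hpS : p ∉ S)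
    (ℓ : ℕ) [Fact ℓ.Prime] (hℓ : ℓ ≠ p) (P : Ideal ZBar) (hP : P.IsMaximal)
    (hpP : (p : ZBar) ∈ P) (σ : GQ) (hσ : IsGeomFrob p P σ) :
    (T.rho ℓ σ : Matrix (Fin n) (Fin n) ℤ_[ℓ]).charpoly =
      (T.poly p).map (Int.castRingHom ℤ_[ℓ]) :=
  (hT.good p hp hpS).frobenius ℓ hℓ P hP hpP σ hσ

end

/-- A Galois stable lattice in the adelic realisation of `T`: finitely generated `ℤ_ℓ`-submodules
`L_ℓ` of `V_ℓ = ℚ_ℓ ^ n` which span `V_ℓ` and are stable, with `L_ℓ = ℤ_ℓ ^ n` for almost all `ℓ`. -/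
structure IsLattice (T : IntegralSystem n)
    (L : ∀ (ℓ : ℕ) [Fact ℓ.Prime], Submodule ℤ_[ℓ] (Fin n → ℚ_[ℓ])) : Prop where
  fg : ∀ (ℓ : ℕ) [Fact ℓ.Prime], (L ℓ).FG
  span : ∀ (ℓ : ℕ) [Fact ℓ.Prime] (v : Fin n → ℚ_[ℓ]), ∃ m : ℕ, (ℓ : ℚ_[ℓ]) ^ m • v ∈ L ℓ
  stable : ∀ (ℓ : ℕ) [Fact ℓ.Prime] (g : GQ), ∀ v ∈ L ℓ,
    (T.rat ℓ g : Matrix (Fin n) (Fin n) ℚ_[ℓ]).mulVec v ∈ L ℓ
  standard : ∃ N : ℕ, ∀ (ℓ : ℕ) [Fact ℓ.Prime], N < ℓ → ∀ v, v ∈ L ℓ ↔ ∀ i, ‖v i‖ ≤ 1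

/-- The lattices `L` and `L'` are proportional: `c L' = L` for a rational number `c > 0`. -/
def Proportional (L L' : ∀ (ℓ : ℕ) [Fact ℓ.Prime], Submodule ℤ_[ℓ] (Fin n → ℚ_[ℓ])) : Prop :=
  ∃ c : ℚ, 0 < c ∧ ∀ (ℓ : ℕ) [Fact ℓ.Prime] (v : Fin n → ℚ_[ℓ]), v ∈ L' ℓ ↔ (c : ℚ_[ℓ]) • v ∈ L ℓ

end IntegralSystem

/-- There is no isotropic relation between the roots of `P`: no nonempty family `A` of roots such
that `A` and the numbers `s / z`, `z` in `A`, together are among the roots of `P` (with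
multiplicities), and such that the square of the product of `A` is the power `s ^ |A|`. -/
def NoIsotropicRelation (P : ℤ[X]) (s : ℕ) : Prop :=
  ∀ A : Multiset ℂ, A ≠ 0 → A + A.map (fun z => (s : ℂ) / z) ≤ P.aroots ℂ →
    A.prod ^ 2 ≠ (s : ℂ) ^ Multiset.card A

/-- Two Frobenius polynomials have no isotropic relation, and the unipotent elements have Jordan
blocks without common partial sums, on all `V_ℓ` and on almost all `T_ℓ / ℓ`. -/
structure IsRigid {n : ℕ} (S : Finset ℕ) (w : ℕ) (T : IntegralSystem n) : Prop where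
  twoPrimes : ∃ p q : ℕ, p.Prime ∧ q.Prime ∧ p ∉ S ∧ q ∉ S ∧ p ≠ q ∧
    NoIsotropicRelation (T.poly p) (p ^ w) ∧ NoIsotropicRelation (T.poly q) (q ^ w)
  monodromy : ∀ (ℓ : ℕ) [Fact ℓ.Prime], NoPartialSums (T.rat ℓ)
  residual : ∃ N : ℕ, ∀ (ℓ : ℕ) [Fact ℓ.Prime], N < ℓ → NoPartialSums (T.res ℓ)

end Pool.Agent.Y126.SH
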