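import Pool.Agent.Y126.SH.Fal
import Pool.Agent.Y126.SH.Lat
import Pool.Agent.Y126.SH.BN

/-!
# Finiteness of the integral systems
-/

set_option autoImplicit false

namespace Pool.Agent.Y126.SH

open Module Matrix Polynomial Pool.Agent.Y800

/-- finite codes give finitely many representatives -/
theorem exists_reps {X Y : Type*} (Good : X → Prop) (R : X → X → Prop) (inv : X → Y)
    (hfin : (inv '' {T | Good T}).Finite)
    (h : ∀ T0, Good T0 → ∃ (k : ℕ) (c : X → ℕ), (∀ T, c T < k) ∧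
      ∀ T T', Good T → Good T' → inv T = inv T0 → inv T' = inv T0 → c T = c T' → R T T') :
    ∃ (m : ℕ) (t : Fin m → X), (∀ i, Good (t i)) ∧ ∀ T', Good T' → ∃ i, R (t i) T' := by
  classical
  have h' : ∀ y : Y, ∃ (k : ℕ) (c : X → ℕ), (∀ T, c T < k) ∧
      ∀ T T', Good T → Good T' → inv T = y → inv T' = y → c T = c T' → R T T' := by
    intro y
    by_cases hy : ∃ T0, Good T0 ∧ inv T0 = y
    · obtain ⟨T0, hT0, rfl⟩ := hy
      exact h T0 hT0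
    · exact ⟨1, fun _ => 0, fun _ => Nat.one_pos, fun T T' hT _ hTy _ _ => (hy ⟨T, hT, hTy⟩).elim⟩
  choose k c hk hc using h'
  let code : X → Y × ℕ := fun T => (inv T, c (inv T) T)
  have hcode : (code '' {T | Good T}).Finite := by
    refine (hfin.biUnion (t := fun y => (fun j => (y, j)) '' (Set.Iio (k y)))
      (fun y _ => (Set.finite_Iio _).image _)).subset ?_
    rintro _ ⟨T, hT, rfl⟩
    exact Set.mem_biUnion ⟨T, hT, rfl⟩ ⟨_, hk _ _, rfl⟩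
  have := hcode.to_subtype
  obtain ⟨m, ⟨e⟩⟩ := Finite.exists_equiv_fin (code '' {T | Good T})
  refine ⟨m, fun i => (e.symm i).2.choose, fun i => (e.symm i).2.choose_spec.1, fun T' hT' =>
    ⟨e ⟨code T', T', hT', rfl⟩, ?_⟩⟩
  have h1 := (e.symm (e ⟨code T', T', hT', rfl⟩)).2.choose_spec
  set T := (e.symm (e ⟨code T', T', hT', rfl⟩)).2.choose with hT
  have h2 : code T = code T' := by
    rw [h1.2, Equiv.symm_apply_apply]
  have h3 : inv T = inv T' := congrArg Prod.fst h2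
  have h4 : c (inv T) T = c (inv T') T' := congrArg Prod.snd h2
  rw [h3] at h4
  exact hc (inv T') T T' h1.1 hT' h3 rfl h4

variable {n : ℕ}

theorem exists_B (hn : 0 < n) {S : Finset ℕ} {w : ℕ} {T0 T : IntegralSystem n}
    (hT0 : T0.IsPure S w) (hR0 : IsRigid S w T0) (hT : T.IsPure S w) (hR : IsRigid S w T)
    (ℓ : ℕ) [Fact ℓ.Prime]
    (htr : ∀ g, (T.rat ℓ g : Matrix (Fin n) (Fin n) ℚ_[ℓ]).trace =
      (T0.rat ℓ g : Matrix (Fin n) (Fin n) ℚ_[ℓ]).trace) :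
    ∃ B : Matrix (Fin n) (Fin n) ℤ_[ℓ], (∃ i j, IsUnit (B i j)) ∧
      ∀ g, (T0.rho ℓ g : Matrix (Fin n) (Fin n) ℤ_[ℓ]) * B = B * T.rho ℓ g := by
  obtain ⟨A, hA⟩ := bn (T.rat ℓ) (T0.rat ℓ) hn
    (fun m h1 _ => Nat.cast_ne_zero.2 (by omega))
    (fun W hW => rat_irr hT hR W hW) (fun W hW => rat_irr hT0 hR0 W hW) htr
  exact exists_primitive hn A hA

theorem local_code {S : Finset ℕ} {w : ℕ} {T0 : IntegralSystem n}
    (hT0 : T0.IsPure S w) (hR0 : IsRigid S w T0) (ℓ : ℕ) :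
    ∃ (k : ℕ) (c : IntegralSystem n → ℕ), (∀ T, c T < k) ∧
      ∀ [Fact ℓ.Prime] (T T' : IntegralSystem n),
        (∃ B : Matrix (Fin n) (Fin n) ℤ_[ℓ], (∃ i j, IsUnit (B i j)) ∧
          ∀ g, (T0.rho ℓ g : Matrix (Fin n) (Fin n) ℤ_[ℓ]) * B = B * T.rho ℓ g) →
        (∃ B : Matrix (Fin n) (Fin n) ℤ_[ℓ], (∃ i j, IsUnit (B i j)) ∧
          ∀ g, (T0.rho ℓ g : Matrix (Fin n) (Fin n) ℤ_[ℓ]) * B = B * T'.rho ℓ g) →
        c T = c T' → ∃ A : GL (Fin n) ℤ_[ℓ], ∀ g, T'.rho ℓ g = A * T.rho ℓ g * A⁻¹ := by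
  classical
  by_cases hℓ : ℓ.Prime
  · have hF : Fact ℓ.Prime := ⟨hℓ⟩
    obtain ⟨m, hm⟩ := lat_bound (T0.rho ℓ) (fun U hU => rat_irr hT0 hR0 U hU)
    have hne : NeZero (ℓ ^ m) := ⟨pow_ne_zero _ hℓ.ne_zero⟩
    obtain ⟨k, ⟨e⟩⟩ := Finite.exists_equiv_fin (Fin n → Fin n → ZMod (ℓ ^ m))
    refine ⟨k, fun T => if h : ∃ B : Matrix (Fin n) (Fin n) ℤ_[ℓ], (∃ i j, IsUnit (B i j)) ∧
        ∀ g, (T0.rho ℓ g : Matrix (Fin n) (Fin n) ℤ_[ℓ]) * B = B * T.rho ℓ g then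
          (e (fun i j => PadicInt.toZModPow m (h.choose i j)) : ℕ) else 0, ?_, ?_⟩
    · intro T
      dsimp only
      split_ifs with h
      · exact Fin.is_lt _
      · exact lt_of_le_of_lt (Nat.zero_le _) (e (fun _ _ => 0)).is_lt
    · intro _ T T' h h' hc
      dsimp only at hc
      rw [dif_pos h, dif_pos h'] at hc
      have h1 := e.injective (Fin.ext hc)
      exact lat_congr hm h.choose_spec.1 h'.choose_spec.1 h.choose_spec.2 h'.choose_spec.2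
        (fun i j => congrFun (congrFun h1 i) j)
  · exact ⟨1, fun _ => 0, fun _ => Nat.one_pos, fun {hF} => (hℓ hF.out).elim⟩

/-- **Finiteness.** -/
theorem finiteness (n w : ℕ) (hn : 0 < n) (S : Finset ℕ) :
    ∃ (m : ℕ) (T : Fin m → IntegralSystem n),
      (∀ i, (T i).IsPure S w ∧ IsRigid S w (T i)) ∧
      ∀ T' : IntegralSystem n, (T'.IsPure S w ∧ IsRigid S w T') → ∃ i, (T i).Isomorphic T' := by
  classical
  obtain ⟨𝒯, h𝒯, hdet⟩ := traces_of_finite hn S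
  refine exists_reps (fun T : IntegralSystem n => T.IsPure S w ∧ IsRigid S w T)
    (fun T T' => T.Isomorphic T') (fun T => fun p : 𝒯 => (T.poly p).coeff (n - 1)) ?_ ?_
  · refine (Set.Finite.pi' (t := fun p : 𝒯 => Set.Icc
      (-(((p : ℕ) ^ w) ^ n * n.choose (n / 2) : ℕ) : ℤ) ((((p : ℕ) ^ w) ^ n * n.choose (n / 2) : ℕ) : ℤ))
      (fun p => Set.finite_Icc _ _)).subset ?_
    rintro _ ⟨T, hT, rfl⟩ p
    exact abs_le.1 (coeff_bound hT.1 (h𝒯 p p.2).1 (h𝒯 p p.2).2 (n - 1))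
  · rintro T0 ⟨hT0, hR0⟩
    obtain ⟨N, hN⟩ := res_irr hT0 hR0
    choose k c hk hc using local_code hT0 hR0
    obtain ⟨K, ⟨e⟩⟩ := Finite.exists_equiv_fin (∀ ℓ : Fin (N + 1), Fin (k ℓ))
    refine ⟨K, fun T => (e fun ℓ => ⟨c ℓ T, hk ℓ T⟩ : ℕ), fun T => Fin.is_lt _, ?_⟩
    rintro T T' ⟨hT, hR⟩ ⟨hT', hR'⟩ hi hi' hcode ℓ hℓ
    have h1 := exists_B hn hT0 hR0 hT hR ℓ
      (hdet w w T T0 hT hT0 (fun p hp => congrFun hi ⟨p, hp⟩) ℓ)
    have h2 := exists_B hn hT0 hR0 hT' hR' ℓ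
      (hdet w w T' T0 hT' hT0 (fun p hp => congrFun hi' ⟨p, hp⟩) ℓ)
    by_cases hℓN : ℓ ≤ N
    · have h3 := e.injective (Fin.ext hcode)
      have h4 := congrFun h3 ⟨ℓ, Nat.lt_succ_of_le hℓN⟩
      exact hc ℓ T T' h1 h2 (congrArg Fin.val h4)
    · obtain ⟨B, hB, hB'⟩ := h1
      obtain ⟨B', hB1, hB1'⟩ := h2
      obtain ⟨A, hA⟩ := lat_res (fun U hU => hN ℓ (by omega) U hU) hB hB'
      obtain ⟨A', hA'⟩ := lat_res (fun U hU => hN ℓ (by omega) U hU) hB1 hB1'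
      refine ⟨A' * A⁻¹, fun g => ?_⟩
      rw [hA, hA']
      group

end Pool.Agent.Y126.SH
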