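import Pool.Agent.Y126.SH.Defs

/-!
# Stable subspaces and the weights
-/

set_option autoImplicit false

namespace Pool.Agent.Y126.SH

open Module Pool.Agent.Y800

variable {k : Type} [Field k] {n : ℕ}

/-- The subspace `U` of `k ^ n` is stable under the representation `ρ`. -/
def IsStable (ρ : GQ →* GL (Fin n) k) (U : Submodule k (Fin n → k)) : Prop :=
  ∀ g : GQ, ∀ u ∈ U, (ρ g : Matrix (Fin n) (Fin n) k).mulVec u ∈ U

/-- The determinant of `ρ g` on the stable subspace `U`. -/
noncomputable def detOn (ρ : GQ →* GL (Fin n) k) (U : Submodule k (Fin n → k))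
    (hU : IsStable ρ U) (g : GQ) : k :=
  LinearMap.det ((Matrix.toLin' (ρ g : Matrix (Fin n) (Fin n) k)).restrict (hU g))

theorem weights_sub {ρ : GQ →* GL (Fin n) k} {χ : GQ → k} {ℓ c : ℕ} (h : WeightsAt ρ χ ℓ c)
    (U : Submodule k (Fin n → k)) (hU : IsStable ρ U) : ∃ a : ℕ, a ≤ c ∧
      ∀ P : Ideal ZBar, P.IsMaximal → (ℓ : ZBar) ∈ P → ∀ τ : GQ, InInertia P τ →
        detOn ρ U hU τ * χ τ ^ a = 1 := by
  classical
  let b := Module.finBasis k U
  let C : Matrix (Fin n) (Fin (finrank k U)) k := Matrix.of fun i j => (b j : Fin n → k) i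
  have hC : ∀ v, C.mulVec v = ((∑ j, v j • b j : U) : Fin n → k) := by
    intro v
    funext i
    rw [Matrix.mulVec, dotProduct, Submodule.coe_sum, Finset.sum_apply]
    refine Finset.sum_congr rfl fun j _ => ?_
    show (b j : Fin n → k) i * v j = v j * (b j : Fin n → k) i
    rw [mul_comm]
  have hinj : Function.Injective C.mulVec := by
    intro v v' hv
    rw [hC, hC] at hv
    have h3 := Subtype.ext hv
    have h4 := congrArg b.repr h3
    funext j
    have h5 := DFunLike.congr_fun h4 j
    rw [Basis.repr_sum_self, Basis.repr_sum_self] at h5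
    exact h5
  have heq : ∀ g, (ρ g : Matrix (Fin n) (Fin n) k) * C = C * LinearMap.toMatrix b b
      ((Matrix.toLin' (ρ g : Matrix (Fin n) (Fin n) k)).restrict (hU g)) := by
    intro g
    ext i j
    have h3 : (C * LinearMap.toMatrix b b
        ((Matrix.toLin' (ρ g : Matrix (Fin n) (Fin n) k)).restrict (hU g))) i j =
        C.mulVec (fun l => LinearMap.toMatrix b b
          ((Matrix.toLin' (ρ g : Matrix (Fin n) (Fin n) k)).restrict (hU g)) l j) i := rfl
    rw [h3, hC]
    have h4 : (∑ l, LinearMap.toMatrix b b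
        ((Matrix.toLin' (ρ g : Matrix (Fin n) (Fin n) k)).restrict (hU g)) l j • b l) =
        ((Matrix.toLin' (ρ g : Matrix (Fin n) (Fin n) k)).restrict (hU g)) (b j) := by
      simp only [LinearMap.toMatrix_apply]
      exact b.sum_repr _
    rw [h4]
    rfl
  obtain ⟨a, ha, h2⟩ := h (finrank k U) C _ hinj heq
  refine ⟨a, ha, fun P hP hℓP τ hτ => ?_⟩
  have h3 := h2 P hP hℓP τ hτ
  rw [LinearMap.det_toMatrix] at h3
  exact h3

end Pool.Agent.Y126.SH
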